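import Mathlib

/-! The building of `GL_n`, from the ordered set of all lattices (abstract version): `sh k x` is
`π ^ k x`, `vol` is the valuation of the determinant. -/

set_option autoImplicit false

namespace Pool.Agent.BN

/-- A group `G` which acts on an ordered set `Λ` of lattices with a shift and a volume. (For
`x ≤ y`, `vol x - vol y` is the length of `y / x`.) -/
structure MS (n : ℕ) (G Λ : Type) [Group G] [Lattice Λ] [MulAction G Λ] where
  sh : ℤ → Λ → Λ
  sh_zero : ∀ x, sh 0 x = x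
  sh_add : ∀ a b x, sh (a + b) x = sh a (sh b x)
  sh_mono : ∀ a x y, x ≤ y → sh a x ≤ sh a y
  sh_one : ∀ x, sh 1 x ≤ x
  vol : Λ → ℤ
  vol_sh : ∀ a x, vol (sh a x) = vol x + n * a
  vol_lt : ∀ x y, x < y → vol y < vol x
  vol_sup_inf : ∀ x y, vol (x ⊔ y) + vol (x ⊓ y) = vol x + vol y
  arch : ∀ x y, ∃ k : ℤ, sh k x ≤ y
  smul_le : ∀ (g : G) (x y : Λ), x ≤ y → g • x ≤ g • y
  smul_sh : ∀ (g : G) (a : ℤ) (x : Λ), g • sh a x = sh a (g • x)
  smul_vol : ∀ (g : G) (x : Λ), vol (g • x) = vol x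

variable {n : ℕ} {G Λ : Type} [Group G] [Lattice Λ] [MulAction G Λ] (S : MS n G Λ)

namespace MS

theorem sh_neg (a : ℤ) (x : Λ) : S.sh (-a) (S.sh a x) = x := by
  rw [← S.sh_add, neg_add_cancel, S.sh_zero]

theorem sh_neg' (a : ℤ) (x : Λ) : S.sh a (S.sh (-a) x) = x := by
  rw [← S.sh_add, add_neg_cancel, S.sh_zero]

theorem sh_comm (a b : ℤ) (x : Λ) : S.sh a (S.sh b x) = S.sh b (S.sh a x) := by
  rw [← S.sh_add, ← S.sh_add, add_comm]

theorem sh_le_iff (a : ℤ) {x y : Λ} : S.sh a x ≤ S.sh a y ↔ x ≤ y := by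
  refine ⟨fun h => ?_, S.sh_mono a x y⟩
  have h1 := S.sh_mono (-a) _ _ h
  rwa [S.sh_neg, S.sh_neg] at h1

theorem sh_lt_iff (a : ℤ) {x y : Λ} : S.sh a x < S.sh a y ↔ x < y := by
  rw [lt_iff_le_not_ge, lt_iff_le_not_ge, S.sh_le_iff, S.sh_le_iff]

theorem sh_inj (a : ℤ) {x y : Λ} : S.sh a x = S.sh a y ↔ x = y := by
  rw [le_antisymm_iff, le_antisymm_iff, S.sh_le_iff, S.sh_le_iff]

theorem sh_le_iff' (a : ℤ) {x y : Λ} : S.sh a x ≤ y ↔ x ≤ S.sh (-a) y := by
  rw [← S.sh_le_iff (-a), S.sh_neg]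

theorem sh_lt_iff' (a : ℤ) {x y : Λ} : S.sh a x < y ↔ x < S.sh (-a) y := by
  rw [← S.sh_lt_iff (-a), S.sh_neg]

theorem sh_nat (k : ℕ) (x : Λ) : S.sh k x ≤ x := by
  induction k with
  | zero => rw [Nat.cast_zero, S.sh_zero]
  | succ k ih =>
    rw [Nat.cast_succ, add_comm, S.sh_add]
    exact (S.sh_one _).trans ih

theorem sh_anti {a b : ℤ} (h : a ≤ b) (x : Λ) : S.sh b x ≤ S.sh a x := by
  obtain ⟨k, rfl⟩ := Int.le.dest h
  rw [add_comm, S.sh_add]
  exact S.sh_nat k _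

theorem le_sh_neg {a : ℤ} (h : a ≤ 0) (x : Λ) : x ≤ S.sh a x := by
  have := S.sh_anti h x
  rwa [S.sh_zero] at this

theorem sh_le {a : ℤ} (h : 0 ≤ a) (x : Λ) : S.sh a x ≤ x := by
  have := S.sh_anti h x
  rwa [S.sh_zero] at this

theorem vol_le {x y : Λ} (h : x ≤ y) : S.vol y ≤ S.vol x := by
  rcases h.lt_or_eq with h | rfl
  · exact (S.vol_lt _ _ h).le
  · exact le_rfl

theorem eq_of_vol {x y : Λ} (h : x ≤ y) (hv : S.vol x ≤ S.vol y) : x = y := by
  rcases h.lt_or_eq with h | h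
  · exact absurd (S.vol_lt _ _ h) (not_lt.2 hv)
  · exact h

theorem sh_sup (a : ℤ) (x y : Λ) : S.sh a (x ⊔ y) = S.sh a x ⊔ S.sh a y := by
  refine le_antisymm ?_ (sup_le (S.sh_mono _ _ _ le_sup_left) (S.sh_mono _ _ _ le_sup_right))
  rw [S.sh_le_iff']
  refine sup_le ?_ ?_
  · rw [← S.sh_le_iff']
    exact le_sup_left
  · rw [← S.sh_le_iff']
    exact le_sup_right

theorem sh_inf (a : ℤ) (x y : Λ) : S.sh a (x ⊓ y) = S.sh a x ⊓ S.sh a y := by
  refine le_antisymm (le_inf (S.sh_mono _ _ _ inf_le_left) (S.sh_mono _ _ _ inf_le_right)) ?_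
  have h : S.sh (-a) (S.sh a x ⊓ S.sh a y) ≤ x ⊓ y := by
    refine le_inf ?_ ?_
    · rw [S.sh_le_iff', neg_neg]
      exact inf_le_left
    · rw [S.sh_le_iff', neg_neg]
      exact inf_le_right
  rw [S.sh_le_iff', neg_neg] at h
  exact h

include S in
theorem smul_le_iff (g : G) {x y : Λ} : g • x ≤ g • y ↔ x ≤ y := by
  refine ⟨fun h => ?_, S.smul_le g x y⟩
  have h1 := S.smul_le g⁻¹ _ _ h
  rwa [inv_smul_smul, inv_smul_smul] at h1

include S in
theorem smul_lt_iff (g : G) {x y : Λ} : g • x < g • y ↔ x < y := by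
  rw [lt_iff_le_not_ge, lt_iff_le_not_ge, S.smul_le_iff, S.smul_le_iff]

include S in
theorem smul_sup (g : G) (x y : Λ) : g • (x ⊔ y) = g • x ⊔ g • y := by
  refine le_antisymm ?_ (sup_le (S.smul_le _ _ _ le_sup_left) (S.smul_le _ _ _ le_sup_right))
  rw [← S.smul_le_iff g⁻¹, inv_smul_smul]
  refine sup_le ?_ ?_
  · rw [← S.smul_le_iff g, smul_inv_smul]
    exact le_sup_left
  · rw [← S.smul_le_iff g, smul_inv_smul]
    exact le_sup_right

include S in
theorem smul_inf (g : G) (x y : Λ) : g • (x ⊓ y) = g • x ⊓ g • y := by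
  refine le_antisymm (le_inf (S.smul_le _ _ _ inf_le_left) (S.smul_le _ _ _ inf_le_right)) ?_
  rw [← S.smul_le_iff g⁻¹, inv_smul_smul]
  refine le_inf ?_ ?_
  · rw [← S.smul_le_iff g, smul_inv_smul]
    exact inf_le_left
  · rw [← S.smul_le_iff g, smul_inv_smul]
    exact inf_le_right

include S in
/-- The modular law. -/
theorem modular : IsModularLattice Λ where
  sup_inf_le_assoc_of_le {x} y {z} hxz := by
    have h0 : x ⊔ y ⊓ z ≤ (x ⊔ y) ⊓ z :=
      le_inf (sup_le_sup_left inf_le_left x) (sup_le hxz inf_le_right)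
    refine (S.eq_of_vol h0 ?_).ge
    have h1 := S.vol_sup_inf (x ⊔ y) z
    have h2 := S.vol_sup_inf x (y ⊓ z)
    have h3 := S.vol_sup_inf y z
    have h4 := S.vol_sup_inf x y
    have h5 : x ⊔ y ⊔ z = y ⊔ z := by
      rw [sup_comm x y, sup_assoc, sup_eq_right.2 hxz]
    have h6 : x ⊓ (y ⊓ z) = x ⊓ y := by
      rw [inf_comm y z, ← inf_assoc, inf_eq_left.2 hxz]
    rw [h5] at h1
    rw [h6] at h2
    omega

theorem exists_nat_sh (x y : Λ) : ∃ N : ℕ, S.sh N x ≤ y := by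
  obtain ⟨k, hk⟩ := S.arch x y
  exact ⟨k.toNat, (S.sh_anti (Int.self_le_toNat k) x).trans hk⟩

/-- Nakayama. -/
theorem nakayama {x y : Λ} (h : x ≤ y ⊔ S.sh 1 x) : x ≤ y := by
  have hm := S.modular
  have h1 : x ⊓ y ⊔ S.sh 1 x = x := by
    have h2 : S.sh 1 x ⊔ y ⊓ x = (S.sh 1 x ⊔ y) ⊓ x :=
      (sup_inf_assoc_of_le y (S.sh_one x)).symm
    rw [sup_comm, inf_comm x y, h2]
    refine le_antisymm inf_le_right (le_inf ?_ le_rfl)
    rw [sup_comm]
    exact h
  have h2 : ∀ N : ℕ, x ≤ x ⊓ y ⊔ S.sh N x := by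
    intro N
    induction N with
    | zero =>
      rw [Nat.cast_zero, S.sh_zero]
      exact le_sup_right
    | succ N ih =>
      refine ih.trans (sup_le le_sup_left ?_)
      have h3 : S.sh N x = S.sh N (x ⊓ y) ⊔ S.sh (N + 1 : ℕ) x := by
        rw [Nat.cast_succ, S.sh_add, ← S.sh_sup, h1]
      rw [h3]
      exact sup_le ((S.sh_nat N _).trans le_sup_left) le_sup_right
  obtain ⟨N, hN⟩ := S.exists_nat_sh x (x ⊓ y)
  exact (h2 N).trans ((sup_le le_rfl hN).trans inf_le_right)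

/-- Nakayama, dual form. -/
theorem nakayama' {x y : Λ} (h : y ⊓ S.sh (-1) x ≤ x) : y ≤ x := by
  have hm := S.modular
  have h2 : ∀ N : ℕ, y ⊓ S.sh (-(N : ℤ)) x ≤ x := by
    intro N
    induction N with
    | zero =>
      rw [Nat.cast_zero, neg_zero, S.sh_zero]
      exact inf_le_right
    | succ N ih =>
      have h3 : y ⊓ S.sh (-((N + 1 : ℕ) : ℤ)) x ≤ S.sh (-(N : ℤ)) x := by
        have h4 : S.sh (-(N : ℤ)) (y ⊓ S.sh (-1) x) ≤ S.sh (-(N : ℤ)) x := S.sh_mono _ _ _ h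
        have h5 : y ≤ S.sh (-(N : ℤ)) y := S.le_sh_neg (by omega) y
        have h6 : S.sh (-((N + 1 : ℕ) : ℤ)) x = S.sh (-(N : ℤ)) (S.sh (-1) x) := by
          rw [← S.sh_add]
          congr 1
          push_cast
          ring
        rw [h6]
        rw [S.sh_inf] at h4
        exact (inf_le_inf_right _ h5).trans h4
      exact (le_inf inf_le_left h3).trans ih
  obtain ⟨N, hN⟩ := S.exists_nat_sh y x
  rw [S.sh_le_iff'] at hN
  exact (le_inf le_rfl hN).trans (h2 N)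

/-- The length of a strictly increasing chain from `x` to `y` is bounded by `vol x - vol y`. -/
theorem chain_length {m : ℕ} (c : ℕ → Λ) (hc : ∀ i < m, c i < c (i + 1)) :
    (m : ℤ) ≤ S.vol (c 0) - S.vol (c m) := by
  induction m with
  | zero => simp
  | succ m ih =>
    have h1 := ih fun i hi => hc i (by omega)
    have h2 := S.vol_lt _ _ (hc m (by omega))
    push_cast
    omega

include S in
/-- For `n = 0` there is at most one lattice. -/
theorem subsingleton_of_zero (hn : n = 0) : Subsingleton Λ := by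
  subst hn
  have h1 : ∀ x : Λ, S.sh 1 x = x := by
    intro x
    refine S.eq_of_vol (S.sh_one x) ?_
    rw [S.vol_sh]
    simp
  have h2 : ∀ (N : ℕ) (x : Λ), S.sh N x = x := by
    intro N x
    induction N with
    | zero => rw [Nat.cast_zero, S.sh_zero]
    | succ N ih => rw [Nat.cast_succ, add_comm, S.sh_add, ih, h1]
  refine ⟨fun x y => ?_⟩
  obtain ⟨N, hN⟩ := S.exists_nat_sh x y
  obtain ⟨M, hM⟩ := S.exists_nat_sh y x
  rw [h2] at hN hM
  exact le_antisymm hN hM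

/-- Restriction of the action along a homomorphism. -/
def comap {G' : Type} [Group G'] (f : G' →* G) :
    @MS n G' Λ _ _ (MulAction.compHom Λ f) :=
  let _ : MulAction G' Λ := MulAction.compHom Λ f
  { sh := S.sh
    sh_zero := S.sh_zero
    sh_add := S.sh_add
    sh_mono := S.sh_mono
    sh_one := S.sh_one
    vol := S.vol
    vol_sh := S.vol_sh
    vol_lt := S.vol_lt
    vol_sup_inf := S.vol_sup_inf
    arch := S.arch
    smul_le := fun g => S.smul_le (f g)
    smul_sh := fun g => S.smul_sh (f g)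
    smul_vol := fun g => S.smul_vol (f g) }

end MS

end Pool.Agent.BN
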