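import Mathlib
import Pool.Agent.Lib.MP_8f66f0_al_Tree.SpecD
import Pool.Agent.Lib.MP_8f66f0_al_Tree.SpecE

/-! Closure of a class of groups under actions on the affine buildings of `GL_d`, for all
discretely valued fields (with an arbitrary residue field): the interface between the `K`-theory
of such actions and the theorems on linear groups. -/

set_option autoImplicit false

namespace Pool.Agent.BN

open Pool.Agent.TreeC

/-- `GL_d(F)`. -/
abbrev GN (d : ℕ) (F : Type) [CommRing F] : Type := Matrix.GeneralLinearGroup (Fin d) F

/-- The matrices of size `d`. -/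
abbrev MN (d : ℕ) (F : Type) : Type := Matrix (Fin d) (Fin d) F

/-- The subgroup `Δ` fixes a lattice (the lattice `h O ^ d`, where `O` is the valuation ring). -/
def LatFix {F : Type} [Field F] (v : Valuation F (WithZero (Multiplicative ℤ))) {d : ℕ}
    {Γ : Type} [Group Γ] (ρ : Γ →* GN d F) (Δ : Subgroup Γ) : Prop :=
  ∃ h : GN d F, ∀ g ∈ Δ, ∀ i j : Fin d, v ((h⁻¹ * ρ g * h : GN d F) i j) ≤ 1

/-- The class `P` is closed under actions on the buildings of `GL_d`, `d` arbitrary: if `Γ`
preserves the volumes of lattices and all subgroups of `Γ` which fix a lattice are in the class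
`P`, then `Γ` is in the class. -/
def S_GLP (P : (G : Type) → [Group G] → Prop) : Prop :=
  ∀ (F : Type) [Field F] (v : Valuation F (WithZero (Multiplicative ℤ))) (d : ℕ) (Γ : Type)
    [Group Γ] (ρ : Γ →* GN d F), (∀ g, v (ρ g : MN d F).det = 1) →
    (∀ Δ : Subgroup Γ, LatFix v ρ Δ → P Δ) → P Γ

/-- A class of groups which is closed under isomorphism, directed unions, actions on trees and
actions on the buildings of `GL_d`. -/
structure NCl (P : (G : Type) → [Group G] → Prop) : Prop extends TCl P where
  bld : S_GLP P

/-- THE STATEMENT TO BE PROVED by the `K`-theory of buildings. -/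
def S_GLKS : Prop := S_GLP KS

end Pool.Agent.BN
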