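import Mathlib
import Pool.Agent.Lib.MP_8f66f0_al_B3.OrdV
import Pool.Agent.Lib.MP_8f66f0_al_BN.Abs
import Pool.Agent.Lib.MP_8f66f0_al_BN.Defs

/-! Lattices in `F ^ d` over a principal ideal domain `O` with fraction field `F` and a normalized
valuation. -/

set_option autoImplicit false

namespace Pool.Agent.BN

open Matrix Module
open Pool.Agent.B3 (Ord Ord.one Ord.inv Ord.pow Ord.zpow)

/-- The type of all lattices. -/
abbrev LL (d : ℕ) (O F : Type) [CommRing O] [Field F] [Algebra O F] : Type :=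
  {L : Submodule O (Fin d → F) // L.IsLattice F}

section Lat

variable (O F : Type) [CommRing O] [IsDomain O] [IsPrincipalIdealRing O] [Field F] [Algebra O F]
  [IsFractionRing O F]

variable {O F} {d : ℕ}

/-- The vector over `F`. -/
def toF (c : Fin d → O) : Fin d → F := fun i => algebraMap O F (c i)

variable (O) in
/-- The lattice `u O ^ d`. -/
def Lt (u : MN d F) : Submodule O (Fin d → F) :=
  Submodule.span O (Set.range fun j => u.col j)

theorem mem_Lt {u : MN d F} {v : Fin d → F} :
    v ∈ Lt O u ↔ ∃ c : Fin d → O, u *ᵥ toF c = v := by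
  rw [Lt, Submodule.mem_span_range_iff_exists_fun]
  refine exists_congr fun c => ?_
  have h : (∑ i, c i • u.col i) = u *ᵥ toF c := by
    funext i
    rw [Finset.sum_apply, Matrix.mulVec, dotProduct]
    refine Finset.sum_congr rfl fun j _ => ?_
    rw [Pi.smul_apply, Algebra.smul_def, toF, mul_comm]
    rfl
  rw [h]

theorem Lt_le_iff {u u' : MN d F} :
    Lt O u ≤ Lt O u' ↔ ∃ c : Matrix (Fin d) (Fin d) O, u = u' * c.map (algebraMap O F) := by
  constructor
  · intro h
    have h1 : ∀ j, ∃ c : Fin d → O, u' *ᵥ toF c = u.col j := fun j =>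
      mem_Lt.1 (h (Submodule.subset_span ⟨j, rfl⟩))
    choose c hc using h1
    refine ⟨Matrix.of fun i j => c j i, ?_⟩
    apply Matrix.ext
    intro i j
    have h2 := congrFun (hc j) i
    rw [Matrix.mul_apply]
    exact h2.symm
  · rintro ⟨c, rfl⟩
    rw [Lt, Submodule.span_le]
    rintro _ ⟨j, rfl⟩
    refine mem_Lt.2 ⟨fun i => c i j, ?_⟩
    funext i
    change _ = (u' * c.map (algebraMap O F)) i j
    rw [Matrix.mul_apply]
    rfl

theorem lattice_Lt (u : GN d F) : (Lt O (u : MN d F)).IsLattice F where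
  fg := Submodule.fg_span (Set.finite_range _)
  span_eq_top := by
    rw [eq_top_iff]
    intro v _
    have h1 : v = (u : MN d F) *ᵥ (((u⁻¹ : GN d F) : MN d F) *ᵥ v) := by
      rw [Matrix.mulVec_mulVec, ← Units.val_mul, mul_inv_cancel, Units.val_one, Matrix.one_mulVec]
    have h2 : v = ∑ j, (((u⁻¹ : GN d F) : MN d F) *ᵥ v) j • (u : MN d F).col j := by
      rw [h1]
      funext i
      rw [Finset.sum_apply, Matrix.mulVec, dotProduct]
      refine Finset.sum_congr rfl fun j _ => ?_
      rw [← h1, Pi.smul_apply, smul_eq_mul, mul_comm]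
      rfl
    rw [h2]
    exact Submodule.sum_mem _ fun j _ => Submodule.smul_mem _ _
      (Submodule.subset_span (Submodule.subset_span ⟨j, rfl⟩))

theorem exists_Lt (L : Submodule O (Fin d → F)) (hL : L.IsLattice F) :
    ∃ u : GN d F, L = Lt O (u : MN d F) := by
  have hfree : Module.Free O L := Submodule.IsLattice.free F L
  have hfin : Module.Finite O L := Submodule.IsLattice.finite F L
  have hr : Module.finrank O L = d := by
    have := Submodule.IsLattice.finrank_of_pi F L
    rwa [Fintype.card_fin] at this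
  let b : Basis (Fin d) O L := Module.finBasisOfFinrankEq O L hr
  let B : Basis (Fin d) F (Fin d → F) := b.extendOfIsLattice F
  let e : Basis (Fin d) F (Fin d → F) := Pi.basisFun F (Fin d)
  refine ⟨⟨e.toMatrix B, B.toMatrix e, e.toMatrix_mul_toMatrix_flip B,
    B.toMatrix_mul_toMatrix_flip e⟩, ?_⟩
  have hcol : ∀ j, (e.toMatrix B).col j = (b j : Fin d → F) := by
    intro j
    funext i
    change e.toMatrix B i j = _
    rw [Basis.toMatrix_apply, Pi.basisFun_repr, Basis.extendOfIsLattice_apply]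
  change L = Submodule.span O (Set.range fun j => (e.toMatrix B).col j)
  simp only [hcol]
  have h1 := congrArg (Submodule.map L.subtype) b.span_eq
  rw [Submodule.map_span, ← Set.range_comp, Submodule.map_subtype_top] at h1
  exact h1.symm

instance : Lattice (LL d O F) :=
  Subtype.lattice
    (fun M N hM hN => by
      have := hM
      have := hN
      exact Submodule.IsLattice.sup F M N)
    (fun M N hM hN => by
      have := hM
      have := hN
      exact Submodule.IsLattice.inf F M N)

variable (O) in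
/-- The linear map of a matrix. -/
def lin (g : MN d F) : (Fin d → F) →ₗ[O] (Fin d → F) := (Matrix.mulVecLin g).restrictScalars O

theorem lin_one : lin O (1 : MN d F) = LinearMap.id := by
  apply LinearMap.ext
  intro v
  exact Matrix.one_mulVec v

theorem lin_mul (g h : MN d F) : lin O (g * h) = (lin O g).comp (lin O h) := by
  apply LinearMap.ext
  intro v
  exact (Matrix.mulVec_mulVec v g h).symm

theorem map_Lt (g u : MN d F) : (Lt O u).map (lin O g) = Lt O (g * u) := by
  rw [Lt, Lt, Submodule.map_span, ← Set.range_comp]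
  congr 2

instance : MulAction (GN d F) (LL d O F) where
  smul g L := ⟨L.1.map (lin O (g : MN d F)), by
    obtain ⟨u, hu⟩ := exists_Lt L.1 L.2
    rw [hu, map_Lt, ← Units.val_mul]
    exact lattice_Lt (g * u)⟩
  one_smul L := Subtype.ext (by
    change L.1.map (lin O ((1 : GN d F) : MN d F)) = L.1
    rw [Units.val_one, lin_one, Submodule.map_id])
  mul_smul g h L := Subtype.ext (by
    change L.1.map (lin O ((g * h : GN d F) : MN d F)) =
      (L.1.map (lin O (h : MN d F))).map (lin O (g : MN d F))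
    rw [Units.val_mul, lin_mul, Submodule.map_comp])

variable (O) in
/-- The lattice `u O ^ d`. -/
def lt (u : GN d F) : LL d O F := ⟨Lt O (u : MN d F), lattice_Lt u⟩

theorem smul_lt' (g u : GN d F) : g • lt O u = lt O (g * u) :=
  Subtype.ext (by
    change (Lt O (u : MN d F)).map (lin O (g : MN d F)) = Lt O ((g * u : GN d F) : MN d F)
    rw [map_Lt, Units.val_mul])

theorem exists_lt (L : LL d O F) : ∃ u : GN d F, L = lt O u := by
  obtain ⟨u, hu⟩ := exists_Lt L.1 L.2
  exact ⟨u, Subtype.ext hu⟩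

theorem lt_le_iff {u u' : GN d F} : lt O u ≤ lt O u' ↔
    ∃ c : Matrix (Fin d) (Fin d) O, (u : MN d F) = (u' : MN d F) * c.map (algebraMap O F) :=
  Lt_le_iff

theorem smul_mono' (g : GN d F) {L L' : LL d O F} (h : L ≤ L') : g • L ≤ g • L' :=
  Submodule.map_mono (f := lin O (g : MN d F)) h

/-! ### The volume -/

variable (w : Ord O F)

theorem det_ne (u : GN d F) : (u : MN d F).det ≠ 0 := by
  have := (Matrix.GeneralLinearGroup.det u).ne_zero
  exact this

theorem ord_det_mul (u v : GN d F) :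
    w.ord ((u * v : GN d F) : MN d F).det = w.ord (u : MN d F).det + w.ord (v : MN d F).det := by
  rw [Units.val_mul, Matrix.det_mul, w.mul _ _ (det_ne u) (det_ne v)]

theorem det_le {u u' : GN d F} (h : lt O u ≤ lt O u') :
    w.ord (u' : MN d F).det ≤ w.ord (u : MN d F).det ∧
      (w.ord (u' : MN d F).det = w.ord (u : MN d F).det → lt O u' ≤ lt O u) := by
  obtain ⟨c, hc⟩ := lt_le_iff.1 h
  have h1 : (u : MN d F).det = (u' : MN d F).det * algebraMap O F c.det := by
    rw [hc, Matrix.det_mul, RingHom.map_det]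
    rfl
  have h2 : algebraMap O F c.det ≠ 0 := by
    intro h0
    rw [h0, mul_zero] at h1
    exact det_ne u h1
  have h3 : w.ord (u : MN d F).det = w.ord (u' : MN d F).det + w.ord (algebraMap O F c.det) := by
    rw [h1, w.mul _ _ (det_ne u') h2]
  have h4 : 0 ≤ w.ord (algebraMap O F c.det) := (w.mem _ h2).1 ⟨_, rfl⟩
  refine ⟨by omega, fun he => ?_⟩
  have h5 : 0 ≤ w.ord (algebraMap O F c.det)⁻¹ := by
    rw [w.inv h2]
    omega
  obtain ⟨y, hd⟩ := (w.mem _ (inv_ne_zero h2)).2 h5
  have h6 : c.det * y = 1 := by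
    apply IsFractionRing.injective O F
    rw [map_mul, hd, map_one, mul_inv_cancel₀ h2]
  have h7 : IsUnit c := (Matrix.isUnit_iff_isUnit_det c).2 (IsUnit.of_mul_eq_one y h6)
  obtain ⟨C, hC⟩ := h7
  refine lt_le_iff.2 ⟨((C⁻¹ : (Matrix (Fin d) (Fin d) O)ˣ) : Matrix (Fin d) (Fin d) O), ?_⟩
  have h8 : c.map (algebraMap O F) *
      ((C⁻¹ : (Matrix (Fin d) (Fin d) O)ˣ) : Matrix (Fin d) (Fin d) O).map (algebraMap O F) =
        1 := by
    rw [← Matrix.map_mul, ← hC, ← Units.val_mul, mul_inv_cancel, Units.val_one,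
      Matrix.map_one _ (map_zero _) (map_one _)]
  rw [hc, Matrix.mul_assoc, h8, Matrix.mul_one]

/-- The valuation of the determinant. -/
noncomputable def vol (L : LL d O F) : ℤ := w.ord ((Classical.choose (exists_lt L) : GN d F) : MN d F).det

theorem vol_lt' (u : GN d F) : vol w (lt O u) = w.ord (u : MN d F).det := by
  have h := Classical.choose_spec (exists_lt (lt O u))
  rw [vol]
  exact le_antisymm (det_le w h.le).1 (det_le w h.ge).1

theorem smul_vol' (g : GN d F) (L : LL d O F) : vol w (g • L) = w.ord (g : MN d F).det + vol w L := by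
  obtain ⟨u, rfl⟩ := exists_lt L
  rw [smul_lt', vol_lt', vol_lt', ord_det_mul]

theorem vol_strict {L L' : LL d O F} (h : L < L') : vol w L' < vol w L := by
  obtain ⟨u, rfl⟩ := exists_lt L
  obtain ⟨u', rfl⟩ := exists_lt L'
  rw [vol_lt', vol_lt']
  obtain ⟨h1, h2⟩ := det_le w h.le
  refine lt_of_le_of_ne h1 fun he => ?_
  exact absurd (h2 he) (not_le_of_gt h)

/-! ### Scalars -/

/-- Scalar matrices. -/
def scal : Fˣ →* GN d F := Units.map (algebraMap F (MN d F)).toMonoidHom

theorem scal_val (c : Fˣ) : ((scal c : GN d F) : MN d F) = algebraMap F (MN d F) (c : F) := rfl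

theorem scal_comm (c : Fˣ) (g : GN d F) : g * scal c = scal c * g := by
  apply Units.ext
  rw [Units.val_mul, Units.val_mul, scal_val]
  exact (Algebra.commutes _ _).symm

theorem det_scal (c : Fˣ) : ((scal c : GN d F) : MN d F).det = (c : F) ^ d := by
  rw [scal_val, Matrix.algebraMap_eq_diagonal, Matrix.det_diagonal]
  simp

/-- The prime element as a unit. -/
def pu : Fˣ := Units.mk0 w.π w.π_ne

/-- The lattice `π ^ k L`. -/
def shift (k : ℤ) (L : LL d O F) : LL d O F := (scal (pu w ^ k) : GN d F) • L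

theorem ord_det_scal (k : ℤ) : w.ord ((scal (pu w ^ k) : GN d F) : MN d F).det = d * k := by
  have h1 : ((pu w ^ k : Fˣ) : F) = w.π ^ k := by
    rw [Units.val_zpow_eq_zpow_val]
    rfl
  rw [det_scal, h1, w.pow (zpow_ne_zero k w.π_ne), w.zpow]

theorem arch' (L L' : LL d O F) : ∃ k : ℤ, shift w k L ≤ L' := by
  obtain ⟨u, rfl⟩ := exists_lt L
  obtain ⟨u', rfl⟩ := exists_lt L'
  let m : MN d F := ((u'⁻¹ * u : GN d F) : MN d F)
  let N : ℕ := ∑ i, ∑ j, (w.ord (m i j)).natAbs
  have hN : ∀ i j, -(N : ℤ) ≤ w.ord (m i j) := by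
    intro i j
    have h1 : (w.ord (m i j)).natAbs ≤ N :=
      (Finset.single_le_sum (f := fun j => (w.ord (m i j)).natAbs) (fun _ _ => Nat.zero_le _)
        (Finset.mem_univ j)).trans
        (Finset.single_le_sum (f := fun i => ∑ j, (w.ord (m i j)).natAbs)
          (fun _ _ => Nat.zero_le _) (Finset.mem_univ i))
    omega
  have hc : ∀ i j, ∃ a : O, algebraMap O F a = w.π ^ (N : ℤ) * m i j := by
    intro i j
    by_cases h0 : m i j = 0
    · exact ⟨0, by rw [h0, mul_zero, map_zero]⟩
    · refine (w.mem _ (mul_ne_zero (zpow_ne_zero _ w.π_ne) h0)).2 ?_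
      rw [w.mul _ _ (zpow_ne_zero _ w.π_ne) h0, w.zpow]
      have := hN i j
      omega
  choose c hc using hc
  refine ⟨N, ?_⟩
  rw [shift, smul_lt']
  refine lt_le_iff.2 ⟨Matrix.of c, ?_⟩
  have h1 : (Matrix.of c).map (algebraMap O F) = ((scal (pu w ^ (N : ℤ)) : GN d F) : MN d F) * m := by
    have h2 : ((pu w ^ (N : ℤ) : Fˣ) : F) = w.π ^ (N : ℤ) := by
      rw [Units.val_zpow_eq_zpow_val]
      rfl
    apply Matrix.ext
    intro i j
    rw [scal_val, h2, ← Algebra.smul_def, Matrix.smul_apply, smul_eq_mul]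
    exact hc i j
  have h3 : u' * (scal (pu w ^ (N : ℤ)) * (u'⁻¹ * u)) = scal (pu w ^ (N : ℤ)) * u := by
    rw [← mul_assoc u', scal_comm, mul_assoc, mul_inv_cancel_left]
  rw [h1, ← Units.val_mul, ← Units.val_mul, h3]

theorem shift_one (L : LL d O F) : shift w 1 L ≤ L := by
  obtain ⟨u, rfl⟩ := exists_lt L
  rw [shift, smul_lt']
  obtain ⟨a, ha⟩ := (w.mem w.π w.π_ne).2 (by rw [w.ord_π]; exact zero_le_one)
  refine lt_le_iff.2 ⟨algebraMap O _ a, ?_⟩
  rw [zpow_one, ← scal_comm, Units.val_mul, scal_val]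
  congr 1
  have h1 : ((pu w : Fˣ) : F) = w.π := rfl
  rw [h1, ← ha, Matrix.algebraMap_eq_diagonal, Matrix.algebraMap_eq_diagonal,
    Matrix.diagonal_map (map_zero _)]
  rfl

/-- The group of all matrices whose determinant has valuation `0`. -/
def Gz : Subgroup (GN d F) where
  carrier := {g | w.ord (g : MN d F).det = 0}
  one_mem' := by
    change w.ord ((1 : GN d F) : MN d F).det = 0
    rw [Units.val_one, Matrix.det_one, w.one]
  mul_mem' {a b} ha hb := by
    change w.ord (a : MN d F).det = 0 at ha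
    change w.ord (b : MN d F).det = 0 at hb
    change w.ord ((a * b : GN d F) : MN d F).det = 0
    rw [ord_det_mul, ha, hb, add_zero]
  inv_mem' {a} ha := by
    change w.ord (a : MN d F).det = 0 at ha
    change w.ord ((a⁻¹ : GN d F) : MN d F).det = 0
    have h := ord_det_mul w a a⁻¹
    rw [mul_inv_cancel, Units.val_one, Matrix.det_one, w.one, ha, zero_add] at h
    exact h.symm

/-! ### The modular identity for the volume -/

omit [IsPrincipalIdealRing O] in
/-- Determinants of square matrices of any size which differ by an integral matrix. -/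
theorem ord_det_le {ι : Type} [Fintype ι] [DecidableEq ι] (X Y : Matrix ι ι F)
    (c : Matrix ι ι O) (h : X = Y * c.map (algebraMap O F)) (hX : X.det ≠ 0) :
    w.ord Y.det ≤ w.ord X.det := by
  have h1 : X.det = Y.det * algebraMap O F c.det := by
    rw [h, Matrix.det_mul, RingHom.map_det]
    rfl
  have h2 : algebraMap O F c.det ≠ 0 := by
    intro h0
    rw [h0, mul_zero] at h1
    exact hX h1
  have h3 : Y.det ≠ 0 := by
    intro h0
    rw [h0, zero_mul] at h1
    exact hX h1
  have h4 : 0 ≤ w.ord (algebraMap O F c.det) := (w.mem _ h2).1 ⟨_, rfl⟩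
  rw [h1, w.mul _ _ h3 h2]
  omega

theorem vol_sup_inf' (L M : LL d O F) : vol w (L ⊔ M) + vol w (L ⊓ M) = vol w L + vol w M := by
  classical
  obtain ⟨u, hu⟩ := exists_lt L
  obtain ⟨v, hv⟩ := exists_lt M
  obtain ⟨s, hs⟩ := exists_lt (L ⊔ M)
  obtain ⟨t, ht⟩ := exists_lt (L ⊓ M)
  rw [hs, ht, vol_lt', vol_lt', hu, hv, vol_lt', vol_lt']
  have hL : L.1 = Lt O (u : MN d F) := congrArg Subtype.val hu
  have hM : M.1 = Lt O (v : MN d F) := congrArg Subtype.val hv
  have hS : L.1 ⊔ M.1 = Lt O (s : MN d F) := congrArg Subtype.val hs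
  have hT : L.1 ⊓ M.1 = Lt O (t : MN d F) := congrArg Subtype.val ht
  -- the basis of the sum is decomposed
  have hcol : ∀ j, ∃ a ∈ L.1, ∃ b ∈ M.1, a + b = (s : MN d F).col j := by
    intro j
    have h1 : (s : MN d F).col j ∈ L.1 ⊔ M.1 := by
      rw [hS]
      exact Submodule.subset_span ⟨j, rfl⟩
    exact Submodule.mem_sup.1 h1
  choose a ha b hb hab using hcol
  let A : MN d F := Matrix.of fun i j => a j i
  let B : MN d F := Matrix.of fun i j => b j i
  have hAB : A + B = (s : MN d F) := by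
    ext i j
    exact congrFun (hab j) i
  let X : Matrix (Fin d ⊕ Fin d) (Fin d ⊕ Fin d) F := Matrix.fromBlocks (t : MN d F) A
    (-(t : MN d F)) B
  let Y : Matrix (Fin d ⊕ Fin d) (Fin d ⊕ Fin d) F := Matrix.fromBlocks (u : MN d F) 0 0
    (v : MN d F)
  have hX : X.det = (t : MN d F).det * (s : MN d F).det := by
    have h1 : X = Matrix.fromBlocks 1 0 (-1) 1 *
        Matrix.fromBlocks (t : MN d F) A 0 (s : MN d F) := by
      rw [Matrix.fromBlocks_multiply]
      simp only [Matrix.one_mul, Matrix.zero_mul, add_zero, Matrix.neg_mul, X]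
      rw [← hAB]
      congr 1
      abel
    rw [h1, Matrix.det_mul, Matrix.det_fromBlocks_zero₁₂, Matrix.det_fromBlocks_zero₂₁,
      Matrix.det_one, mul_one, one_mul]
  have hY : Y.det = (u : MN d F).det * (v : MN d F).det := Matrix.det_fromBlocks_zero₁₂ _ _ _
  have hX0 : X.det ≠ 0 := by
    rw [hX]
    exact mul_ne_zero (det_ne t) (det_ne s)
  have hY0 : Y.det ≠ 0 := by
    rw [hY]
    exact mul_ne_zero (det_ne u) (det_ne v)
  -- `X` in terms of `Y`
  have htL : ∀ j, ∃ c : Fin d → O, (u : MN d F) *ᵥ toF c = (t : MN d F).col j := by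
    intro j
    apply mem_Lt.1
    rw [← hL]
    have h1 : (t : MN d F).col j ∈ L.1 ⊓ M.1 := by
      rw [hT]
      exact Submodule.subset_span ⟨j, rfl⟩
    exact h1.1
  have htM : ∀ j, ∃ c : Fin d → O, (v : MN d F) *ᵥ toF c = (t : MN d F).col j := by
    intro j
    apply mem_Lt.1
    rw [← hM]
    have h1 : (t : MN d F).col j ∈ L.1 ⊓ M.1 := by
      rw [hT]
      exact Submodule.subset_span ⟨j, rfl⟩
    exact h1.2
  have haL : ∀ j, ∃ c : Fin d → O, (u : MN d F) *ᵥ toF c = a j := by
    intro j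
    apply mem_Lt.1
    rw [← hL]
    exact ha j
  have hbM : ∀ j, ∃ c : Fin d → O, (v : MN d F) *ᵥ toF c = b j := by
    intro j
    apply mem_Lt.1
    rw [← hM]
    exact hb j
  choose c1 hc1 using htL
  choose c2 hc2 using htM
  choose c3 hc3 using haL
  choose c4 hc4 using hbM
  have key : ∀ (M1 M2 : MN d F) (c : Fin d → Fin d → O),
      (∀ j, M1 *ᵥ toF (c j) = M2.col j) →
      M1 * (Matrix.of fun i j => c j i).map (algebraMap O F) = M2 := by
    intro M1 M2 c hc
    ext i j
    rw [Matrix.mul_apply]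
    exact congrFun (hc j) i
  have e1 := key _ _ c1 hc1
  have e2 := key _ _ c2 hc2
  have e3 : (u : MN d F) * (Matrix.of fun i j => c3 j i).map (algebraMap O F) = A :=
    key _ _ c3 hc3
  have e4 : (v : MN d F) * (Matrix.of fun i j => c4 j i).map (algebraMap O F) = B :=
    key _ _ c4 hc4
  have hXY : X = Y * (Matrix.fromBlocks (Matrix.of fun i j => c1 j i)
      (Matrix.of fun i j => c3 j i) (-(Matrix.of fun i j => c2 j i))
      (Matrix.of fun i j => c4 j i)).map (algebraMap O F) := by
    rw [Matrix.fromBlocks_map, Matrix.fromBlocks_multiply]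
    simp only [Matrix.zero_mul, add_zero, zero_add, X]
    rw [e1, e3, e4, Matrix.map_neg _ (fun _ => map_neg _ _), Matrix.mul_neg, e2]
  -- `Y` in terms of `X`
  have hLM : ∀ l ∈ L.1, ∀ m ∈ M.1, ∃ c e : Fin d → O,
      l = (t : MN d F) *ᵥ toF e + A *ᵥ toF c ∧
      m = (-(t : MN d F)) *ᵥ toF e + B *ᵥ toF c := by
    intro l hl m hm
    have h1 : l + m ∈ L.1 ⊔ M.1 := Submodule.add_mem_sup hl hm
    rw [hS] at h1
    obtain ⟨c, hc⟩ := mem_Lt.1 h1
    have hA : A *ᵥ toF c ∈ L.1 := by
      rw [← e3, hL, ← Matrix.mulVec_mulVec]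
      refine mem_Lt.2 ⟨(Matrix.of fun i j => c3 j i) *ᵥ c, ?_⟩
      congr 1
      funext i
      rw [toF, Matrix.mulVec, Matrix.mulVec, dotProduct, dotProduct, map_sum]
      refine Finset.sum_congr rfl fun j _ => ?_
      rw [map_mul]
      rfl
    have hB : B *ᵥ toF c ∈ M.1 := by
      rw [← e4, hM, ← Matrix.mulVec_mulVec]
      refine mem_Lt.2 ⟨(Matrix.of fun i j => c4 j i) *ᵥ c, ?_⟩
      congr 1
      funext i
      rw [toF, Matrix.mulVec, Matrix.mulVec, dotProduct, dotProduct, map_sum]
      refine Finset.sum_congr rfl fun j _ => ?_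
      rw [map_mul]
      rfl
    have hABc : A *ᵥ toF c + B *ᵥ toF c = l + m := by
      rw [← Matrix.add_mulVec, hAB, hc]
    have h2 : l - A *ᵥ toF c = -(m - B *ᵥ toF c) := by
      rw [neg_sub, sub_eq_sub_iff_add_eq_add, add_comm (B *ᵥ toF c), hABc]
    have h3 : l - A *ᵥ toF c ∈ L.1 ⊓ M.1 := by
      refine ⟨L.1.sub_mem hl hA, ?_⟩
      rw [h2]
      exact M.1.neg_mem (M.1.sub_mem hm hB)
    rw [hT] at h3
    obtain ⟨e, he⟩ := mem_Lt.1 h3
    refine ⟨c, e, ?_, ?_⟩
    · rw [he]
      abel
    · rw [Matrix.neg_mulVec, he, h2]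
      abel
  have hu0 : ∀ j, (u : MN d F).col j ∈ L.1 := by
    intro j
    rw [hL]
    exact Submodule.subset_span ⟨j, rfl⟩
  have hv0 : ∀ j, (v : MN d F).col j ∈ M.1 := by
    intro j
    rw [hM]
    exact Submodule.subset_span ⟨j, rfl⟩
  choose p1 p2 hp1 hp2 using fun j => hLM _ (hu0 j) 0 M.1.zero_mem
  choose q1 q2 hq1 hq2 using fun j => hLM 0 L.1.zero_mem _ (hv0 j)
  have hYX : Y = X * (Matrix.fromBlocks (Matrix.of fun i j => p2 j i)
      (Matrix.of fun i j => q2 j i) (Matrix.of fun i j => p1 j i)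
      (Matrix.of fun i j => q1 j i)).map (algebraMap O F) := by
    rw [Matrix.fromBlocks_map, Matrix.fromBlocks_multiply]
    simp only [Y]
    congr 1
    · ext i j
      have h := congrFun (hp1 j) i
      rw [Matrix.add_apply, Matrix.mul_apply, Matrix.mul_apply]
      exact h
    · ext i j
      have h := congrFun (hq1 j) i
      rw [Matrix.add_apply, Matrix.mul_apply, Matrix.mul_apply]
      exact h
    · ext i j
      have h := congrFun (hp2 j) i
      rw [Matrix.add_apply, Matrix.mul_apply, Matrix.mul_apply]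
      exact h
    · ext i j
      have h := congrFun (hq2 j) i
      rw [Matrix.add_apply, Matrix.mul_apply, Matrix.mul_apply]
      exact h
  have h1 := ord_det_le w X Y _ hXY hX0
  have h2 := ord_det_le w Y X _ hYX hY0
  rw [hX, hY, w.mul _ _ (det_ne t) (det_ne s), w.mul _ _ (det_ne u) (det_ne v)] at h1 h2
  omega

/-- The group and the lattices. -/
noncomputable def ms : MS d (Gz (d := d) w) (LL d O F) where
  sh := shift w
  sh_zero L := by rw [shift, zpow_zero, map_one, one_smul]
  sh_add a b L := by rw [shift, shift, shift, _root_.zpow_add, map_mul, mul_smul]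
  sh_mono a _ _ h := smul_mono' _ h
  sh_one := shift_one w
  vol := vol w
  vol_sh a L := by
    rw [shift, smul_vol', ord_det_scal, add_comm]
  vol_lt _ _ h := vol_strict w h
  vol_sup_inf := vol_sup_inf' w
  arch := arch' w
  smul_le g _ _ h := smul_mono' (g : GN d F) h
  smul_sh g a L := by
    change (g : GN d F) • (scal (pu w ^ a) : GN d F) • L =
      (scal (pu w ^ a) : GN d F) • (g : GN d F) • L
    rw [← mul_smul, ← mul_smul, scal_comm]
  smul_vol g L := by
    change vol w ((g : GN d F) • L) = vol w L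
    have h : w.ord ((g : GN d F) : MN d F).det = 0 := g.2
    rw [smul_vol', h, zero_add]

end Lat

end Pool.Agent.BN
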