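import Mathlib
import Pool.Agent.Lib.MP_8f66f0_al_BN.Lat

/-! Lattices in `F ^ d`: between two lattices there is one of colength one; countability. -/

set_option autoImplicit false

namespace Pool.Agent.BN

open Matrix Module
open Pool.Agent.B3 (Ord Ord.one Ord.inv Ord.pow Ord.zpow)

section Cover

variable {O F : Type} [CommRing O] [IsDomain O] [Field F] [Algebra O F]
  [IsFractionRing O F] {d : ℕ} (w : Ord O F)

/-- The prime element in `O`. -/
theorem exists_pi : ∃ p : O, algebraMap O F p = w.π :=
  (w.mem w.π w.π_ne).2 (by rw [w.ord_π]; exact zero_le_one)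

theorem pi_dvd_or_isUnit {p : O} (hp : algebraMap O F p = w.π) (a : O) : p ∣ a ∨ IsUnit a := by
  by_cases ha : a = 0
  · left
    rw [ha]
    exact dvd_zero p
  have ha' : algebraMap O F a ≠ 0 := by
    rw [Ne, IsFractionRing.to_map_eq_zero_iff]
    exact ha
  have h0 : 0 ≤ w.ord (algebraMap O F a) := (w.mem _ ha').1 ⟨a, rfl⟩
  rcases h0.lt_or_eq with h | h
  · left
    have h1 : algebraMap O F a * w.π⁻¹ ≠ 0 := mul_ne_zero ha' (inv_ne_zero w.π_ne)
    obtain ⟨b, hb⟩ := (w.mem _ h1).2 (by
      rw [w.mul _ _ ha' (inv_ne_zero w.π_ne), w.inv w.π_ne, w.ord_π]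
      omega)
    refine ⟨b, ?_⟩
    apply IsFractionRing.injective O F
    rw [map_mul, hp, hb, mul_comm (algebraMap O F a), mul_inv_cancel_left₀ w.π_ne]
  · right
    obtain ⟨b, hb⟩ := (w.mem _ (inv_ne_zero ha')).2 (by
      rw [w.inv ha', ← h]
      exact le_rfl)
    refine IsUnit.of_mul_eq_one b ?_
    apply IsFractionRing.injective O F
    rw [map_mul, hb, map_one, mul_inv_cancel₀ ha']

theorem pi_not_isUnit {p : O} (hp : algebraMap O F p = w.π) : ¬ IsUnit p := by
  intro h
  obtain ⟨b, hb⟩ := h.exists_right_inv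
  have h1 : w.π * algebraMap O F b = 1 := by
    rw [← hp, ← map_mul, hb, map_one]
  have hb0 : algebraMap O F b ≠ 0 := right_ne_zero_of_mul_eq_one h1
  have h2 := w.mul _ _ w.π_ne hb0
  rw [h1, w.one, w.ord_π] at h2
  have h3 := (w.mem _ hb0).1 ⟨b, rfl⟩
  omega

theorem pi_maximal {p : O} (hp : algebraMap O F p = w.π) : (Ideal.span {p}).IsMaximal := by
  rw [Ideal.isMaximal_iff]
  refine ⟨fun h => pi_not_isUnit w hp (isUnit_of_dvd_one (Ideal.mem_span_singleton.1 h)), ?_⟩
  intro J x _ hx hxJ
  rcases pi_dvd_or_isUnit w hp x with h | h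
  · exact absurd (Ideal.mem_span_singleton.2 h) hx
  · rw [Ideal.eq_top_of_isUnit_mem J hxJ h]
    exact Submodule.mem_top

/-- If the determinant is divisible by `π`, then after a change of coordinates one row is divisible
by `π`. -/
theorem exists_row {p : O} (hp : algebraMap O F p = w.π) (c : MN d O) (hc : p ∣ c.det) :
    ∃ (i : Fin d) (y : Fin d → O), y i = 1 ∧ ∀ j, p ∣ (y ᵥ* c) j := by
  classical
  have hm := pi_maximal w hp
  let k := O ⧸ Ideal.span {p}
  let _ : Field k := Ideal.Quotient.field _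
  let q : O →+* k := Ideal.Quotient.mk _
  have h1 : (c.map q).det = 0 := by
    have h2 : (c.map q).det = q c.det := (RingHom.map_det q c).symm
    rw [h2]
    exact Ideal.Quotient.eq_zero_iff_mem.2 (Ideal.mem_span_singleton.2 hc)
  obtain ⟨v, hv, hv0⟩ := Matrix.exists_vecMul_eq_zero_iff.2 h1
  obtain ⟨i, hi⟩ := Function.ne_iff.1 hv
  have hi' : v i ≠ 0 := hi
  choose y0 hy0 using fun j => Ideal.Quotient.mk_surjective (I := Ideal.span {p}) ((v i)⁻¹ * v j)
  refine ⟨i, Function.update y0 i 1, Function.update_self _ _ _, fun j => ?_⟩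
  rw [← Ideal.mem_span_singleton, ← Ideal.Quotient.eq_zero_iff_mem]
  have h3 : ∀ l, q (Function.update y0 i 1 l) = (v i)⁻¹ * v l := by
    intro l
    by_cases hl : l = i
    · subst hl
      rw [Function.update_self, map_one, inv_mul_cancel₀ hi']
    · rw [Function.update_of_ne hl]
      exact hy0 l
  change q ((Function.update y0 i 1 ᵥ* c) j) = 0
  have h4 : q ((Function.update y0 i 1 ᵥ* c) j) = (v i)⁻¹ * ((v ᵥ* c.map q) j) := by
    rw [Matrix.vecMul, dotProduct, map_sum, Matrix.vecMul, dotProduct, Finset.mul_sum]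
    refine Finset.sum_congr rfl fun l _ => ?_
    rw [map_mul, h3, mul_assoc]
    rfl
  rw [h4, hv0]
  exact mul_zero _

variable [IsPrincipalIdealRing O]

theorem cover' {L M : LL d O F} (h : L < M) : ∃ N : LL d O F, L ≤ N ∧ N < M ∧
    vol w N = vol w M + 1 := by
  classical
  obtain ⟨u, rfl⟩ := exists_lt M
  obtain ⟨u', rfl⟩ := exists_lt L
  obtain ⟨c, hc⟩ := lt_le_iff.1 h.le
  obtain ⟨p, hp⟩ := exists_pi w
  -- the determinant of `c` is divisible by `p`
  have hdet : p ∣ c.det := by
    rcases pi_dvd_or_isUnit w hp c.det with h1 | h1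
    · exact h1
    · exfalso
      have h2 := vol_strict w h
      rw [vol_lt', vol_lt', hc, Matrix.det_mul] at h2
      have h3 : (c.map (algebraMap O F)).det = algebraMap O F c.det :=
        (RingHom.map_det (algebraMap O F) c).symm
      obtain ⟨b, hb⟩ := h1.exists_right_inv
      have h4 : algebraMap O F c.det * algebraMap O F b = 1 := by
        rw [← map_mul, hb, map_one]
      have h5 := left_ne_zero_of_mul_eq_one h4
      have h6 := right_ne_zero_of_mul_eq_one h4
      have h7 := w.mul _ _ h5 h6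
      rw [h4, w.one] at h7
      have h8 := (w.mem _ h5).1 ⟨_, rfl⟩
      have h9 := (w.mem _ h6).1 ⟨_, rfl⟩
      rw [h3, w.mul _ _ (det_ne u) h5] at h2
      omega
  obtain ⟨i, y, hy, hyc⟩ := exists_row w hp c hdet
  let P : MN d O := (1 : MN d O).updateRow i y
  have hP : P.det = 1 := by
    have h1 := Matrix.cramer_transpose_apply (1 : MN d O) y i
    rw [Matrix.transpose_one, Matrix.cramer_one] at h1
    rw [← h1]
    exact hy
  let PU : (MN d O)ˣ := Matrix.nonsingInvUnit P (by rw [hP]; exact isUnit_one)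
  let PF : GN d F := Units.map ((algebraMap O F).mapMatrix.toMonoidHom) PU
  have hPF : (PF : MN d F) = P.map (algebraMap O F) := rfl
  have hPF' : ((PF⁻¹ : GN d F) : MN d F) = ((PU⁻¹ : (MN d O)ˣ) : MN d O).map (algebraMap O F) :=
    rfl
  choose z hz using hyc
  let D : MN d O := Matrix.diagonal (Function.update (fun _ => (1 : O)) i p)
  have hD : D.det = p := by
    rw [Matrix.det_diagonal, Finset.prod_update_of_mem (Finset.mem_univ i)]
    simp
  have hDF : (D.map (algebraMap O F)).det = w.π := by
    have h1 : (D.map (algebraMap O F)).det = algebraMap O F D.det :=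
      (RingHom.map_det (algebraMap O F) D).symm
    rw [h1, hD, hp]
  let DF : GN d F := Matrix.GeneralLinearGroup.mkOfDetNeZero (D.map (algebraMap O F)) (by
    rw [hDF]
    exact w.π_ne)
  have hDF' : (DF : MN d F) = D.map (algebraMap O F) := rfl
  let C : MN d O := (P * c).updateRow i z
  have hC1 : ∀ j, C i j = z j := fun j => congrFun Matrix.updateRow_self j
  have hC2 : ∀ l, l ≠ i → ∀ j, C l j = (P * c) l j := fun l hl j =>
    congrFun (Matrix.updateRow_ne hl) j
  have hP1 : ∀ m, P i m = y m := fun m => congrFun Matrix.updateRow_self m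
  have hDC : D * C = P * c := by
    ext l j
    rw [Matrix.diagonal_mul]
    by_cases hl : l = i
    · rw [hl, Function.update_self, hC1, ← hz j, Matrix.mul_apply, Matrix.vecMul, dotProduct]
      refine Finset.sum_congr rfl fun m _ => ?_
      rw [hP1]
    · rw [Function.update_of_ne hl, one_mul, hC2 l hl]
  have hvol : vol w (lt O (u * PF⁻¹ * DF)) = vol w (lt O u) + 1 := by
    rw [vol_lt', vol_lt', ord_det_mul, ord_det_mul, hDF', hDF, w.ord_π]
    have h1 : w.ord ((PF⁻¹ : GN d F) : MN d F).det = 0 := by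
      have h2 := ord_det_mul w PF PF⁻¹
      rw [mul_inv_cancel, Units.val_one, Matrix.det_one, w.one] at h2
      have h3 : (PF : MN d F).det = 1 := by
        rw [hPF]
        have h4 : (P.map (algebraMap O F)).det = algebraMap O F P.det :=
          (RingHom.map_det (algebraMap O F) P).symm
        rw [h4, hP, map_one]
      rw [h3, w.one] at h2
      omega
    rw [h1]
    omega
  refine ⟨lt O (u * PF⁻¹ * DF), ?_, ?_, hvol⟩
  · refine lt_le_iff.2 ⟨C, ?_⟩
    rw [hc, Units.val_mul, Units.val_mul, Matrix.mul_assoc, hDF', ← Matrix.map_mul, hDC,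
      Matrix.map_mul, ← hPF, Matrix.mul_assoc, ← Matrix.mul_assoc ((PF⁻¹ : GN d F) : MN d F),
      ← Units.val_mul, inv_mul_cancel, Units.val_one, Matrix.one_mul]
  · have h1 : lt O (u * PF⁻¹ * DF) ≤ lt O u := by
      refine lt_le_iff.2 ⟨((PU⁻¹ : (MN d O)ˣ) : MN d O) * D, ?_⟩
      rw [Units.val_mul, Units.val_mul, hPF', hDF', Matrix.map_mul, Matrix.mul_assoc]
    refine lt_of_le_of_ne h1 fun he => ?_
    rw [he] at hvol
    omega

/-- If `F` is countable, then there are only countably many lattices. -/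
instance countable_LL [Countable F] : Countable (LL d O F) := by
  have : Countable (GN d F) := by
    have h1 : Function.Injective (fun g : GN d F => (g : MN d F)) := Units.val_injective
    have h2 : Countable (MN d F) := inferInstanceAs (Countable (Fin d → Fin d → F))
    exact h1.countable
  have h3 : Function.Surjective (fun u : GN d F => lt O u) := fun L => by
    obtain ⟨u, hu⟩ := exists_lt L
    exact ⟨u, hu.symm⟩
  exact h3.countable

end Cover

end Pool.Agent.BN
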