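import Mathlib
import Pool.Agent.Lib.MP_8f66f0_al_BN.Defs

/-! Descent along finitely many buildings of `GL_d`. -/

set_option autoImplicit false

namespace Pool.Agent.BN

open Pool.Agent.TreeC

/-- The coefficients of the characteristic polynomial are in the valuation ring. -/
def Bd {F : Type} [Field F] (v : Valuation F (WithZero (Multiplicative ℤ))) {d : ℕ}
    (M : MN d F) : Prop :=
  ∀ k : ℕ, v (M.charpoly.coeff k) ≤ 1

theorem bd_of_latFix {F : Type} [Field F] (v : Valuation F (WithZero (Multiplicative ℤ)))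
    {d : ℕ} {Γ : Type} [Group Γ] (ρ : Γ →* GN d F) (Δ : Subgroup Γ) (h : LatFix v ρ Δ) :
    ∀ g ∈ Δ, Bd v (ρ g : MN d F) := by
  obtain ⟨u, hu⟩ := h
  intro g hg k
  let c : MN d v.integer := fun i j => ⟨(u⁻¹ * ρ g * u : GN d F) i j, hu g hg i j⟩
  have h1 : ((u⁻¹ * ρ g * u : GN d F) : MN d F) = c.map (algebraMap v.integer F) := by
    ext i j
    rfl
  have h3 : ((u⁻¹ * ρ g * u : GN d F) : MN d F).charpoly = (ρ g : MN d F).charpoly := by
    rw [Units.val_mul, Units.val_mul, Matrix.charpoly_mul_comm, ← Matrix.mul_assoc,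
      ← Units.val_mul, mul_inv_cancel, Units.val_one, Matrix.one_mul]
  rw [h1, Matrix.charpoly_map] at h3
  rw [← h3, Polynomial.coeff_map]
  exact (c.charpoly.coeff k).2

theorem step (P : (G : Type) → [Group G] → Prop) (hP : NCl P) (F : Type) [Field F]
    (v : Valuation F (WithZero (Multiplicative ℤ))) (d : ℕ) (Γ : Type) [Group Γ]
    (ρ : Γ →* GN d F) (hdet : ∀ g, v (ρ g : MN d F).det = 1)
    (h : ∀ Δ : Subgroup Γ, (∀ g ∈ Δ, Bd v (ρ g : MN d F)) → P Δ) : P Γ :=
  hP.bld F v d Γ ρ hdet fun Δ hΔ => h Δ (bd_of_latFix v ρ Δ hΔ)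

theorem desc (P : (G : Type) → [Group G] → Prop) (hP : NCl P) (Γ : Type) [Group Γ] (d n : ℕ)
    (F : Fin n → Type) [∀ i, Field (F i)] (v : ∀ i, Valuation (F i) (WithZero (Multiplicative ℤ)))
    (ρ : ∀ i, Γ →* GN d (F i)) (hdet : ∀ i g, v i (ρ i g : MN d (F i)).det = 1)
    (h : ∀ Δ : Subgroup Γ, (∀ g ∈ Δ, ∀ i, Bd (v i) (ρ i g : MN d (F i))) → P Δ) : P Γ := by
  classical
  have key : ∀ s : Finset (Fin n), ∀ Δ : Subgroup Γ,
      (∀ Δ' : Subgroup Γ, Δ' ≤ Δ → (∀ g ∈ Δ', ∀ i ∈ s, Bd (v i) (ρ i g : MN d (F i))) → P Δ') →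
      P Δ := by
    intro s
    induction s using Finset.induction_on with
    | empty =>
      intro Δ hΔ
      exact hΔ Δ le_rfl fun g _ i hi => absurd hi (Finset.notMem_empty i)
    | insert i s _ ih =>
      intro Δ hΔ
      refine ih Δ fun Δ' hΔ' hs => ?_
      refine step P hP (F i) (v i) d Δ' ((ρ i).comp Δ'.subtype) (fun g => hdet i g) fun K hK => ?_
      have h6 : P (K.map Δ'.subtype) := by
        refine hΔ _ ?_ ?_
        · rintro _ ⟨g, _, rfl⟩
          exact hΔ' g.2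
        · rintro _ ⟨g, hg, rfl⟩ j hj
          rcases Finset.mem_insert.1 hj with rfl | hj
          · exact hK g hg
          · exact hs g g.2 j hj
      exact hP.iso _ _ (K.equivMapOfInjective Δ'.subtype Δ'.subtype_injective).symm h6
  have h6 : P (⊤ : Subgroup Γ) := by
    refine key Finset.univ ⊤ fun Δ' _ hs => h Δ' fun g hg i => hs g hg i (Finset.mem_univ i)
  exact hP.iso _ _ Subgroup.topEquiv h6

end Pool.Agent.BN
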