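import Mathlib
import Pool.Agent.Lib.MP_8f66f0_al_BN.Cover
import Pool.Agent.Lib.MP_8f66f0_al_BN.Desc
import Pool.Agent.Lib.MP_8f66f0_al_Tree.Dvr

/-! From abstract countable ordered sets of lattices to `GL_d`. -/

set_option autoImplicit false

namespace Pool.Agent.BN

open Pool.Agent.TreeC Pool.Agent.B3

/-- Between `a < b` there is `c` of colength one in `b`. -/
def MS.Cov {n : ℕ} {G Λ : Type} [Group G] [Lattice Λ] [MulAction G Λ] (S : MS n G Λ) : Prop :=
  ∀ a b : Λ, a < b → ∃ c, a ≤ c ∧ c < b ∧ S.vol c = S.vol b + 1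

/-- The class `P` is closed under actions of countable groups on countable ordered sets of
lattices. -/
def S_MCP (P : (G : Type) → [Group G] → Prop) : Prop :=
  ∀ (n : ℕ) (G Λ : Type) [Group G] [Countable G] [Lattice Λ] [Nonempty Λ] [Countable Λ]
    [MulAction G Λ] (S : MS n G Λ), 0 < n → S.Cov →
    (∀ Δ : Subgroup G, (∃ x : Λ, ∀ g ∈ Δ, g • x = x) → P Δ) → P G

/-- THE STATEMENT TO BE PROVED, abstract form. -/
def S_MCKS : Prop := S_MCP KS

/-- Countable groups and fields. -/
private theorem glp_cc (P : (G : Type) → [Group G] → Prop) (hP : TCl P) (h : S_MCP P) (F : Type)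
    [Field F] [Countable F] (v : Valuation F (WithZero (Multiplicative ℤ))) (d : ℕ) (Γ : Type)
    [Group Γ] [Countable Γ] (ρ : Γ →* GN d F) (hdet : ∀ g, v (ρ g : MN d F).det = 1)
    (hΔ : ∀ Δ : Subgroup Γ, LatFix v ρ Δ → P Δ) : P Γ := by
  by_cases hd : d = 0
  · subst hd
    exact hP.iso _ _ Subgroup.topEquiv (hΔ ⊤ ⟨1, fun g _ i => i.elim0⟩)
  by_cases hv : ∃ x : F, x ≠ 0 ∧ v x ≠ 1
  · obtain ⟨w, hw⟩ := exists_ord v hv
    have hPID : IsPrincipalIdealRing v.valuationSubring := dvr F v
    let ρ' : Γ →* Gz (d := d) w := ρ.codRestrict (Gz w) fun g => (hw _ (det_ne (ρ g))).2 (hdet g)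
    have hne : Nonempty (LL d v.valuationSubring F) := ⟨lt v.valuationSubring 1⟩
    let _ : MulAction Γ (LL d v.valuationSubring F) :=
      MulAction.compHom (LL d v.valuationSubring F) ρ'
    refine h d Γ (LL d v.valuationSubring F) ((ms w).comap ρ') (Nat.pos_of_ne_zero hd)
      (fun a b hab => cover' w hab) fun Δ hfix => hΔ Δ ?_
    obtain ⟨x, hx⟩ := hfix
    obtain ⟨u, rfl⟩ := exists_lt x
    refine ⟨u, fun g hg i j => ?_⟩
    have h1 : ρ g • lt v.valuationSubring u = lt v.valuationSubring u := hx g hg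
    rw [smul_lt'] at h1
    obtain ⟨c, hc⟩ := lt_le_iff.1 h1.le
    have h2 : ((u⁻¹ * ρ g * u : GN d F) : MN d F) = c.map (algebraMap v.valuationSubring F) := by
      rw [mul_assoc, Units.val_mul, hc, ← Matrix.mul_assoc, ← Units.val_mul, inv_mul_cancel,
        Units.val_one, Matrix.one_mul]
    rw [h2]
    exact (c i j).2
  · push Not at hv
    have h1 : ∀ x : F, v x ≤ 1 := by
      intro x
      by_cases hx : x = 0
      · rw [hx, map_zero]
        exact zero_le_one
      · exact (hv x hx).le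
    exact hP.iso _ _ Subgroup.topEquiv (hΔ ⊤ ⟨1, fun g _ i j => h1 _⟩)

/-- Countable groups: pass to the subfield generated by the entries. -/
private theorem glp_c (P : (G : Type) → [Group G] → Prop) (hP : TCl P) (h : S_MCP P) (F : Type)
    [Field F] (v : Valuation F (WithZero (Multiplicative ℤ))) (d : ℕ) (Γ : Type) [Group Γ]
    [Countable Γ] (ρ : Γ →* GN d F) (hdet : ∀ g, v (ρ g : MN d F).det = 1)
    (hΔ : ∀ Δ : Subgroup Γ, LatFix v ρ Δ → P Δ) : P Γ := by
  let T : Set F := Set.range fun q : Γ × Fin d × Fin d => (ρ q.1 : MN d F) q.2.1 q.2.2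
  have hT : Countable T := Set.countable_coe_iff.2 (Set.countable_range _)
  let F0 : Subfield F := Subfield.closure T
  have hF0 : Countable F0 := by
    have h1 := Subfield.cardinalMk_closure_le_max T
    rw [← Cardinal.mk_le_aleph0_iff]
    exact h1.trans (max_le (Cardinal.mk_le_aleph0_iff.2 hT) le_rfl)
  have hmem : ∀ (g : Γ) (i j : Fin d), (ρ g : MN d F) i j ∈ F0 := fun g i j =>
    Subfield.subset_closure ⟨(g, i, j), rfl⟩
  let J : Γ →* MN d F0 :=
    { toFun := fun g => Matrix.of fun i k => ⟨(ρ g : MN d F) i k, hmem g i k⟩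
      map_one' := by
        ext i k
        change (ρ 1 : MN d F) i k = (((1 : MN d F0) i k : F0) : F)
        rw [map_one, Units.val_one, Matrix.one_apply, Matrix.one_apply]
        split_ifs <;> rfl
      map_mul' := by
        intro x y
        ext i k
        have e1 : (ρ (x * y) : MN d F) i k =
            ∑ l, (ρ x : MN d F) i l * (ρ y : MN d F) l k := by
          rw [map_mul, Units.val_mul, Matrix.mul_apply]
        refine e1.trans ?_
        rw [Matrix.mul_apply, AddSubmonoidClass.coe_finsetSum]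
        rfl }
  let u : Γ →* GN d F0 := J.toHomUnits
  have hu : ∀ g, (Matrix.GeneralLinearGroup.map F0.subtype) (u g) = ρ g := by
    intro g
    apply Units.ext
    rfl
  let v0 : Valuation F0 (WithZero (Multiplicative ℤ)) := v.comap F0.subtype
  refine glp_cc P hP h F0 v0 d Γ u (fun g => ?_) fun Δ hfix => hΔ Δ ?_
  · have e1 : F0.subtype (u g : MN d F0).det = (ρ g : MN d F).det := by
      rw [RingHom.map_det]
      rfl
    change v (F0.subtype (u g : MN d F0).det) = 1
    rw [e1]
    exact hdet g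
  · obtain ⟨x, hx⟩ := hfix
    refine ⟨Matrix.GeneralLinearGroup.map F0.subtype x, fun g hg i j => ?_⟩
    have e1 : (Matrix.GeneralLinearGroup.map F0.subtype x)⁻¹ * ρ g *
        Matrix.GeneralLinearGroup.map F0.subtype x =
          Matrix.GeneralLinearGroup.map F0.subtype (x⁻¹ * u g * x) := by
      rw [map_mul, map_mul, map_inv, hu]
    rw [e1]
    exact hx g hg i j

theorem glp_of_mcp (P : (G : Type) → [Group G] → Prop) (hP : TCl P) (h : S_MCP P) : S_GLP P := by
  intro F _ v d Γ _ ρ hdet hΔ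
  refine hP.directed Γ {K | K.FG} ⟨⊥, Subgroup.FG.bot⟩ ?_ ?_ ?_
  · intro K hK K' hK'
    exact ⟨K ⊔ K', Subgroup.FG.sup hK hK', le_sup_left, le_sup_right⟩
  · intro g
    exact ⟨Subgroup.closure {g}, ⟨{g}, by simp⟩, Subgroup.subset_closure rfl⟩
  · intro K hK
    have hfg : Group.FG K := (Group.fg_iff_subgroup_fg K).2 hK
    have hc : Countable K := by
      obtain ⟨S, hS, hfin⟩ := Group.fg_iff.1 hfg
      have := hfin.to_subtype
      have hsurj : Function.Surjective (FreeGroup.lift (fun s : S => (s : K))) := by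
        rw [← MonoidHom.range_eq_top, FreeGroup.range_lift_eq_closure, Subtype.range_coe, hS]
      exact hsurj.countable
    refine glp_c P hP h F v d K (ρ.comp K.subtype) (fun g => hdet g) fun Δ hfix => ?_
    obtain ⟨u, hu⟩ := hfix
    have h1 : LatFix v ρ (Δ.map K.subtype) := by
      refine ⟨u, ?_⟩
      rintro _ ⟨g, hg, rfl⟩
      exact hu g hg
    exact hP.iso _ _ (Δ.equivMapOfInjective K.subtype K.subtype_injective).symm (hΔ _ h1)

end Pool.Agent.BN
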