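import Mathlib
import Pool.Agent.Lib.MP_8f66f0_al_BN.Red
import Pool.Agent.Lib.MP_8f66f0_al_B3.Gl3

/-! Torsion free subgroups of `GL_d` over rings of positive characteristic. -/

set_option autoImplicit false

namespace Pool.Agent.BN

open Pool.Agent.TreeC Pool.Agent.B3

/-- The theorem for `GL_d`. -/
def S_glP : Prop :=
  ∀ (P : (G : Type) → [Group G] → Prop), NCl P → ∀ (d : ℕ) (R : Type) [CommRing R] (m : ℕ),
    0 < m → (m : R) = 0 → ∀ Γ : Subgroup (Matrix.GeneralLinearGroup (Fin d) R),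
      (∀ g ∈ Γ, ∀ n : ℕ, 0 < n → g ^ n = 1 → g = 1) → P Γ

theorem glP (h : S_red) : S_glP := by
  intro P hP d R _ m hm hR Γ hΓ
  refine h P hP d R Γ Γ.subtype fun D hD => ?_
  have h1 : ∀ g : D, g = 1 := by
    intro g
    obtain ⟨n, hn, hg⟩ := finite_order R m hm hR ((g : Γ) : Matrix.GeneralLinearGroup (Fin d) R)
      (hD g g.2)
    exact Subtype.ext (Subtype.ext (hΓ _ (g : Γ).2 n hn hg))
  have : Subsingleton D := ⟨fun a b => by rw [h1 a, h1 b]⟩
  exact hP.triv D

theorem red_all : S_red := red val_all (ext dvr)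

theorem gl_all : S_glP := glP red_all

end Pool.Agent.BN
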