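import Mathlib
import Pool.Agent.Lib.MP_8f66f0_al_BN.Red
import Pool.Agent.Lib.MP_8f66f0_al_BN.Gl

/-! Torsion free subgroups of `GL_d(K)`, `K` a field of characteristic `0`, which are compact at
infinity: all algebraic numbers `a` in `K` and all conjugates `β` of `a` in `ℂ` have an embedding
`φ` of `K` in `ℂ` with `φ(a) = β` and with a bounded image of the group. For example the torsion
free subgroups of the orthogonal groups over `ℚ(x_1, ..., x_m)`. -/

set_option autoImplicit false

namespace Pool.Agent.BN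

open Pool.Agent.TreeC Pool.Agent.B3 Polynomial

/-- The group `Γ` is bounded at infinity. -/
def CptInf {K : Type} [Field K] [CharZero K] {d : ℕ} (Γ : Subgroup (GN d K)) : Prop :=
  ∀ a : K, IsAlgebraic ℚ a → ∀ β : ℂ, aeval β (minpoly ℚ a) = 0 →
    ∃ φ : K →+* ℂ, φ a = β ∧ ∃ C : ℝ, ∀ g ∈ Γ, ∀ i j : Fin d, ‖φ ((g : MN d K) i j)‖ ≤ C

namespace Cpt

/-- Eigenvalues of matrices with bounded powers. -/
theorem norm_eig {d : ℕ} {A : Matrix (Fin d) (Fin d) ℂ} {C : ℝ}
    (hC : ∀ (m : ℕ) (i j : Fin d), ‖(A ^ m) i j‖ ≤ C) {μ : ℂ} (h : A.charpoly.eval μ = 0) :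
    ‖μ‖ ≤ 1 := by
  rw [Matrix.eval_charpoly] at h
  obtain ⟨v, hv, h1⟩ := Matrix.exists_mulVec_eq_zero_iff.2 h
  have h2 : A.mulVec v = μ • v := by
    rw [Matrix.sub_mulVec, sub_eq_zero] at h1
    rw [← h1, Matrix.scalar_apply, ← Matrix.smul_one_eq_diagonal, Matrix.smul_mulVec,
      Matrix.one_mulVec]
  have h3 : ∀ m : ℕ, (A ^ m).mulVec v = μ ^ m • v := by
    intro m
    induction m with
    | zero => rw [pow_zero, pow_zero, Matrix.one_mulVec, one_smul]
    | succ m ih =>
      rw [pow_succ, ← Matrix.mulVec_mulVec, h2, Matrix.mulVec_smul, ih, smul_smul, pow_succ']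
  obtain ⟨i, hi⟩ : ∃ i, v i ≠ 0 := by
    by_contra hc
    push Not at hc
    exact hv (funext hc)
  by_contra hμ
  push Not at hμ
  have hC0 : 0 ≤ C := (norm_nonneg _).trans (hC 0 i i)
  obtain ⟨m, hm⟩ := pow_unbounded_of_one_lt ((∑ j, C * ‖v j‖) / ‖v i‖) hμ
  have h4 : ‖μ‖ ^ m * ‖v i‖ ≤ ∑ j, C * ‖v j‖ := by
    have h5 : μ ^ m * v i = ∑ j, (A ^ m) i j * v j := by
      have := congrFun (h3 m) i
      rw [Pi.smul_apply, smul_eq_mul] at this
      rw [← this]
      rfl
    rw [← norm_pow, ← norm_mul, h5]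
    refine (norm_sum_le _ _).trans (Finset.sum_le_sum fun j _ => ?_)
    rw [norm_mul]
    exact mul_le_mul_of_nonneg_right (hC m i j) (norm_nonneg _)
  rw [div_lt_iff₀ (norm_pos_iff.2 hi)] at hm
  exact absurd h4 (not_le.2 hm)

/-- Unipotent matrices with bounded powers. -/
theorem unip {d : ℕ} {u : Matrix (Fin d) (Fin d) ℂ} {C : ℝ}
    (hC : ∀ (m : ℕ) (i j : Fin d), ‖((1 + u) ^ m) i j‖ ≤ C) {r : ℕ} (hr : u ^ r = 0) :
    u = 0 := by
  classical
  by_contra hu
  have hex : ∃ r, u ^ r = 0 := ⟨r, hr⟩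
  obtain ⟨s, hs⟩ : ∃ s, Nat.find hex = s + 2 := by
    have h0 : Nat.find hex ≠ 0 := by
      intro h
      have := Nat.find_spec hex
      rw [h, pow_zero] at this
      apply hu
      rw [← mul_one u, this, mul_zero]
    have h1 : Nat.find hex ≠ 1 := by
      intro h
      have := Nat.find_spec hex
      rw [h, pow_one] at this
      exact hu this
    exact ⟨Nat.find hex - 2, by omega⟩
  have h1 : u ^ (s + 2) = 0 := by
    rw [← hs]
    exact Nat.find_spec hex
  have h2 : u ^ (s + 1) ≠ 0 := Nat.find_min hex (by omega)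
  have h3 : ∀ m : ℕ, (1 + u) ^ m * u ^ (s + 1) = u ^ (s + 1) := by
    intro m
    induction m with
    | zero => rw [pow_zero, one_mul]
    | succ m ih =>
      rw [pow_succ, mul_assoc, add_mul, one_mul, ← pow_succ' u (s + 1), h1, add_zero, ih]
  have h4 : ∀ m : ℕ, (1 + u) ^ m * u ^ s = u ^ s + m • u ^ (s + 1) := by
    intro m
    induction m with
    | zero => rw [pow_zero, one_mul, zero_smul, add_zero]
    | succ m ih =>
      rw [pow_succ, mul_assoc, add_mul, one_mul, ← pow_succ' u s, mul_add, ih, h3, succ_nsmul,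
        add_assoc]
  obtain ⟨i, j, hij⟩ : ∃ i j, (u ^ (s + 1)) i j ≠ 0 := by
    by_contra hc
    push Not at hc
    exact h2 (Matrix.ext hc)
  have hp : 0 < ‖(u ^ (s + 1)) i j‖ := norm_pos_iff.2 hij
  obtain ⟨m, hm⟩ := exists_nat_gt
    (((∑ k, C * ‖(u ^ s) k j‖) + ‖(u ^ s) i j‖) / ‖(u ^ (s + 1)) i j‖)
  rw [div_lt_iff₀ hp] at hm
  have h5 := congrFun (congrFun (h4 m) i) j
  rw [Matrix.add_apply, Matrix.smul_apply, nsmul_eq_mul] at h5
  have h6 : (m : ℂ) * (u ^ (s + 1)) i j = ((1 + u) ^ m * u ^ s) i j - (u ^ s) i j := by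
    rw [h5]
    ring
  have h7 : (m : ℝ) * ‖(u ^ (s + 1)) i j‖ = ‖((1 + u) ^ m * u ^ s) i j - (u ^ s) i j‖ := by
    rw [← h6, norm_mul, Complex.norm_natCast]
  have h8 : ‖((1 + u) ^ m * u ^ s) i j‖ ≤ ∑ k, C * ‖(u ^ s) k j‖ := by
    rw [Matrix.mul_apply]
    refine (norm_sum_le _ _).trans (Finset.sum_le_sum fun k _ => ?_)
    rw [norm_mul]
    exact mul_le_mul_of_nonneg_right (hC m i k) (norm_nonneg _)
  have h9 := norm_sub_le (((1 + u) ^ m * u ^ s) i j) ((u ^ s) i j)
  linarith

/-- Finitely many algebraic elements are polynomials in one of them. -/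
theorem prim {K : Type} [Field K] [CharZero K] (c : ℕ → K) (n : ℕ)
    (hc : ∀ k, IsAlgebraic ℚ (c k)) :
    ∃ (θ : K) (p : ℕ → ℚ[X]), IsAlgebraic ℚ θ ∧ ∀ k ≤ n, aeval θ (p k) = c k := by
  classical
  let S : Set K := c '' (Set.Iic n)
  have hS : S.Finite := (Set.finite_Iic n).image c
  have : Finite S := hS
  have hfd : FiniteDimensional ℚ (IntermediateField.adjoin ℚ S) := by
    apply IntermediateField.finiteDimensional_adjoin
    rintro x ⟨k, -, rfl⟩
    exact (hc k).isIntegral
  obtain ⟨α, hα⟩ := Field.exists_primitive_element ℚ (IntermediateField.adjoin ℚ S)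
  have hαa : IsAlgebraic ℚ α := Algebra.IsAlgebraic.isAlgebraic α
  have key : ∀ k ≤ n, ∃ q : ℚ[X], aeval (α : K) q = c k := by
    intro k hk
    have hmem : c k ∈ IntermediateField.adjoin ℚ S :=
      IntermediateField.subset_adjoin ℚ S ⟨k, hk, rfl⟩
    have h1 : (⟨c k, hmem⟩ : IntermediateField.adjoin ℚ S) ∈
        (IntermediateField.adjoin ℚ {α}).toSubalgebra := by
      rw [hα]
      exact IntermediateField.mem_top
    rw [IntermediateField.adjoin_simple_toSubalgebra_of_isAlgebraic hαa,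
      Algebra.adjoin_singleton_eq_range_aeval] at h1
    obtain ⟨q, hq⟩ := h1
    refine ⟨q, ?_⟩
    have h2 := congrArg (fun x : IntermediateField.adjoin ℚ S => (x : K)) hq
    simp only at h2
    rw [← h2]
    exact IntermediateField.aeval_coe _ α q
  choose q hq using key
  refine ⟨(α : K), fun k => if hk : k ≤ n then q k hk else 0, ?_, fun k hk => ?_⟩
  · exact hαa.algHom (IntermediateField.val _)
  · simp only [dif_pos hk]
    exact hq k hk

/-- The eigenvalues of the elements with integral characteristic polynomials are roots of unity. -/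
theorem eig {K : Type} [Field K] [CharZero K] {d : ℕ} {Γ : Subgroup (GN d K)} (hΓ : CptInf Γ)
    {g : GN d K} (hg : g ∈ Γ) (hi : ∀ k : ℕ, IsIntegral ℤ ((g : MN d K).charpoly.coeff k))
    {l : AlgebraicClosure K} (hl : aeval l (g : MN d K).charpoly = 0) :
    ∃ n : ℕ, 0 < n ∧ l ^ n = 1 := by
  set χ := (g : MN d K).charpoly with hχ
  have hmon : χ.Monic := Matrix.charpoly_monic _
  have hint : IsIntegral ℤ l := by
    have h1 : IsIntegral (integralClosure ℤ K) l := by
      have hT : (↑χ.coeffs : Set K) ⊆ ((integralClosure ℤ K).toSubring : Set K) := by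
        intro x hx
        obtain ⟨k, -, rfl⟩ := Polynomial.mem_coeffs_iff.1 (Finset.mem_coe.1 hx)
        exact hi k
      refine ⟨χ.toSubring (integralClosure ℤ K).toSubring hT,
        (Polynomial.monic_toSubring _ _ _).2 hmon, ?_⟩
      have h2 : (χ.toSubring (integralClosure ℤ K).toSubring hT).map
          (integralClosure ℤ K).toSubring.subtype = χ := Polynomial.map_toSubring _ _ _
      have h3 : algebraMap (integralClosure ℤ K) (AlgebraicClosure K) =
          (algebraMap K (AlgebraicClosure K)).comp (integralClosure ℤ K).toSubring.subtype := rfl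
      rw [h3, ← Polynomial.eval₂_map]
      rw [h2]
      exact hl
    exact isIntegral_trans (R := ℤ) (A := integralClosure ℤ K) l h1
  have hl0 : l ≠ 0 := by
    rintro rfl
    have h1 : algebraMap K (AlgebraicClosure K) (χ.coeff 0) = 0 := by
      rw [← hl, Polynomial.aeval_def, Polynomial.eval₂_at_zero]
    rw [map_eq_zero] at h1
    have h2 : (g : MN d K).det = 0 := by
      rw [Matrix.det_eq_sign_charpoly_coeff, ← hχ, h1, mul_zero]
    exact (Matrix.isUnits_det_units g).ne_zero h2
  obtain ⟨θ, p, hθ, hp⟩ := prim (fun k => χ.coeff k) χ.natDegree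
    (fun k => ((hi k).tower_top (A := ℚ)).isAlgebraic)
  let t0 : AlgebraicClosure K := algebraMap K (AlgebraicClosure K) θ
  have ht0 : IsAlgebraic ℚ t0 := hθ.algHom (IsScalarTower.toAlgHom ℚ K (AlgebraicClosure K))
  have hlQ : IsIntegral ℚ l := hint.tower_top
  let N : IntermediateField ℚ (AlgebraicClosure K) := IntermediateField.adjoin ℚ {t0, l}
  have hfd : FiniteDimensional ℚ N := by
    apply IntermediateField.finiteDimensional_adjoin
    rintro x (rfl | rfl)
    · exact ht0.isIntegral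
    · exact hlQ
  have hN : NumberField N := { to_charZero := inferInstance, to_finiteDimensional := hfd }
  have hinj : Function.Injective N.val := fun a b h => Subtype.ext h
  have ht0N : t0 ∈ N := IntermediateField.subset_adjoin ℚ _ (Or.inl rfl)
  have hlN : l ∈ N := IntermediateField.subset_adjoin ℚ _ (Or.inr rfl)
  let t : N := ⟨t0, ht0N⟩
  let x : N := ⟨l, hlN⟩
  have hx0 : x ≠ 0 := by
    intro h
    exact hl0 (congrArg Subtype.val h)
  have hxi : IsIntegral ℤ x := by
    refine (isIntegral_algHom_iff (N.val.restrictScalars ℤ) ?_).1 hint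
    exact hinj
  obtain ⟨n, hn, h1⟩ := NumberField.Embeddings.pow_eq_one_of_norm_le_one N ℂ hx0 hxi (by
    intro Ψ
    have h1 : aeval t (minpoly ℚ θ) = 0 := by
      apply hinj
      rw [map_zero, ← Polynomial.aeval_algHom_apply]
      show aeval t0 (minpoly ℚ θ) = 0
      have := Polynomial.aeval_algHom_apply
        (IsScalarTower.toAlgHom ℚ K (AlgebraicClosure K)) θ (minpoly ℚ θ)
      rw [minpoly.aeval, map_zero] at this
      exact this
    have h2 : aeval (Ψ t) (minpoly ℚ θ) = 0 := by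
      have := Polynomial.aeval_algHom_apply Ψ.toRatAlgHom t (minpoly ℚ θ)
      rw [h1, map_zero] at this
      exact this
    obtain ⟨φ, hφ, C, hC⟩ := hΓ θ hθ (Ψ t) h2
    refine norm_eig (A := (g : MN d K).map φ) (C := C) (fun m i j => ?_) ?_
    · have h3 : ((g : MN d K).map φ) ^ m = (((g ^ m : GN d K) : MN d K)).map φ := by
        rw [Units.val_pow_eq_pow_val]
        exact (map_pow φ.mapMatrix (g : MN d K) m).symm
      rw [h3, Matrix.map_apply]
      exact hC _ (Γ.pow_mem hg m) i j
    · rw [Matrix.charpoly_map, ← hχ, Polynomial.eval_map, Polynomial.eval₂_eq_sum_range]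
      have h4 : ∀ k ∈ Finset.range (χ.natDegree + 1), φ (χ.coeff k) * Ψ x ^ k =
          Ψ (aeval t (p k) * x ^ k) := by
        intro k hk
        rw [map_mul, map_pow]
        congr 1
        rw [← hp k (Nat.lt_succ_iff.1 (Finset.mem_range.1 hk))]
        have h5 := Polynomial.aeval_algHom_apply Ψ.toRatAlgHom t (p k)
        have h6 := Polynomial.aeval_algHom_apply φ.toRatAlgHom θ (p k)
        rw [RingHom.toRatAlgHom_apply, RingHom.toRatAlgHom_apply] at h5 h6
        rw [← h5, ← h6, hφ]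
      rw [Finset.sum_congr rfl h4, ← map_sum]
      have h7 : (∑ k ∈ Finset.range (χ.natDegree + 1), aeval t (p k) * x ^ k) = 0 := by
        apply hinj
        rw [map_zero, map_sum, ← hl, Polynomial.aeval_eq_sum_range]
        refine Finset.sum_congr rfl fun k hk => ?_
        rw [map_mul, map_pow, ← Polynomial.aeval_algHom_apply, Algebra.smul_def]
        congr 1
        have h8 := Polynomial.aeval_algHom_apply
          (IsScalarTower.toAlgHom ℚ K (AlgebraicClosure K)) θ (p k)
        rw [hp k (Nat.lt_succ_iff.1 (Finset.mem_range.1 hk))] at h8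
        exact h8
      rw [h7, map_zero])
  exact ⟨n, hn, congrArg Subtype.val h1⟩

/-- The elements with integral characteristic polynomials have finite order. -/
theorem ford {K : Type} [Field K] [CharZero K] {d : ℕ} {Γ : Subgroup (GN d K)} (hΓ : CptInf Γ)
    {g : GN d K} (hg : g ∈ Γ) (hi : ∀ k : ℕ, IsIntegral ℤ ((g : MN d K).charpoly.coeff k)) :
    ∃ n : ℕ, 0 < n ∧ g ^ n = 1 := by
  classical
  let Ω := AlgebraicClosure K
  let χ : Polynomial Ω := ((g : MN d K).charpoly).map (algebraMap K Ω)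
  have hmon : χ.Monic := (Matrix.charpoly_monic _).map _
  have hroot : ∀ l ∈ χ.roots, ∃ n : ℕ, 0 < n ∧ l ^ n = 1 := by
    intro l hl
    apply eig hΓ hg hi
    have h1 := (Polynomial.mem_roots hmon.ne_zero).1 hl
    rw [Polynomial.IsRoot.def, Polynomial.eval_map_algebraMap] at h1
    exact h1
  obtain ⟨N, hN, hroot2⟩ : ∃ N : ℕ, 0 < N ∧ ∀ l ∈ χ.roots, l ^ N = 1 := by
    choose! f hf1 hf2 using hroot
    refine ⟨∏ l ∈ χ.roots.toFinset, f l, Finset.prod_pos fun l hl => hf1 l
      (Multiset.mem_toFinset.1 hl), fun l hl => ?_⟩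
    obtain ⟨c, hc⟩ := Finset.dvd_prod_of_mem f (Multiset.mem_toFinset.2 hl)
    rw [hc, pow_mul, hf2 l hl, one_pow]
  have hdvd : χ ∣ (X ^ N - 1) ^ (Multiset.card χ.roots) := by
    have h1 := (IsAlgClosed.splits χ).eq_prod_roots_of_monic hmon
    have h2 : ((X ^ N - 1 : Polynomial Ω)) ^ (Multiset.card χ.roots) =
        (χ.roots.map fun _ => (X ^ N - 1 : Polynomial Ω)).prod := by
      rw [Multiset.map_const', Multiset.prod_replicate]
    rw [h2]
    conv_lhs => rw [h1]
    apply Multiset.prod_dvd_prod_of_dvd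
    intro l hl
    rw [Polynomial.dvd_iff_isRoot, Polynomial.IsRoot.def, Polynomial.eval_sub,
      Polynomial.eval_pow, Polynomial.eval_X, Polynomial.eval_one, hroot2 l hl, sub_self]
  have hnil : ((g : MN d K) ^ N - 1) ^ (Multiset.card χ.roots) = 0 := by
    have h1 : Function.Injective ((algebraMap K Ω).mapMatrix (m := Fin d)) :=
      Matrix.map_injective (algebraMap K Ω).injective
    apply h1
    rw [map_zero, map_pow, map_sub, map_pow, map_one]
    obtain ⟨q, hq⟩ := hdvd
    have h2 := congrArg (aeval ((algebraMap K Ω).mapMatrix (g : MN d K))) hq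
    rw [map_mul, map_pow, map_sub, map_pow, Polynomial.aeval_X, map_one] at h2
    rw [h2]
    have h3 : χ = ((algebraMap K Ω).mapMatrix (g : MN d K)).charpoly :=
      (Matrix.charpoly_map _ _).symm
    rw [h3, Matrix.aeval_self_charpoly, zero_mul]
  obtain ⟨φ, -, C, hC⟩ := hΓ 0 isAlgebraic_zero 0 (by
    rw [minpoly.zero, Polynomial.aeval_X])
  refine ⟨N, hN, ?_⟩
  have h1 : φ.mapMatrix ((g : MN d K) ^ N - 1) = 0 := by
    refine unip (C := C) (fun m i j => ?_) (r := Multiset.card χ.roots) ?_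
    · have h3 : (1 + φ.mapMatrix ((g : MN d K) ^ N - 1)) ^ m =
          (((g ^ (N * m) : GN d K) : MN d K)).map φ := by
        rw [map_sub, map_one, add_sub_cancel, ← map_pow, ← pow_mul, Units.val_pow_eq_pow_val]
        rfl
      rw [h3, Matrix.map_apply]
      exact hC _ (Γ.pow_mem hg _) i j
    · rw [← map_pow, hnil, map_zero]
  have h2 : (g : MN d K) ^ N - 1 = 0 := by
    apply Matrix.map_injective φ.injective
    show φ.mapMatrix ((g : MN d K) ^ N - 1) = φ.mapMatrix 0
    rw [h1, map_zero]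
  apply Units.ext
  rw [Units.val_pow_eq_pow_val, Units.val_one]
  exact sub_eq_zero.1 h2

end Cpt

/-- The theorem on groups which are compact at infinity. -/
def S_cpt : Prop :=
  ∀ (P : (G : Type) → [Group G] → Prop), NCl P → ∀ (d : ℕ) (K : Type) [Field K] [CharZero K]
    (Γ : Subgroup (Matrix.GeneralLinearGroup (Fin d) K)), CptInf Γ →
      (∀ g ∈ Γ, ∀ n : ℕ, 0 < n → g ^ n = 1 → g = 1) → P Γ

theorem cptP (h : S_red) : S_cpt := by
  intro P hP d K _ _ Γ hc hΓ
  refine h P hP d K Γ Γ.subtype fun D hD => ?_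
  have h1 : ∀ g : D, g = 1 := by
    intro g
    obtain ⟨n, hn, hg⟩ := Cpt.ford hc (g : Γ).2 (hD g g.2)
    exact Subtype.ext (Subtype.ext (hΓ _ (g : Γ).2 n hn hg))
  have : Subsingleton D := ⟨fun a b => by rw [h1 a, h1 b]⟩
  exact hP.triv D

theorem cpt_all : S_cpt := cptP red_all

end Pool.Agent.BN
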