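import Mathlib
import Pool.Agent.Lib.MP_8f66f0_al_BN.Cpt

/-! Examples of groups which are compact at infinity: the subgroups of the orthogonal groups over
the field `ℚ(x_i : i ∈ σ)`. -/

set_option autoImplicit false

namespace Pool.Agent.BN

open Polynomial

namespace Cpt

/-- Orthogonal groups over fields with sufficiently many real embeddings. -/
theorem cptInf_orth {K : Type} [Field K] [CharZero K] {d : ℕ} (Γ : Subgroup (GN d K))
    (h : ∀ g ∈ Γ, (g : MN d K).transpose * (g : MN d K) = 1)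
    (hK : ∀ a : K, IsAlgebraic ℚ a → ∀ β : ℂ, aeval β (minpoly ℚ a) = 0 →
      ∃ φ : K →+* ℝ, ((φ a : ℝ) : ℂ) = β) : CptInf Γ := by
  intro a ha β hβ
  obtain ⟨φ, hφ⟩ := hK a ha β hβ
  refine ⟨Complex.ofRealHom.comp φ, hφ, 1, fun g hg i j => ?_⟩
  rw [RingHom.comp_apply, Complex.ofRealHom_eq_coe, Complex.norm_real]
  have h1 := congrArg φ (congrFun (congrFun (h g hg) j) j)
  rw [Matrix.mul_apply, Matrix.one_apply_eq, map_one, map_sum] at h1
  have h2 : ∀ k ∈ (Finset.univ : Finset (Fin d)),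
      φ ((g : MN d K).transpose j k * (g : MN d K) k j) = φ ((g : MN d K) k j) ^ 2 := by
    intro k _
    rw [map_mul, Matrix.transpose_apply, sq]
  rw [Finset.sum_congr rfl h2] at h1
  have h3 : φ ((g : MN d K) i j) ^ 2 ≤ 1 := by
    rw [← h1]
    exact Finset.single_le_sum (f := fun k => φ ((g : MN d K) k j) ^ 2)
      (fun k _ => sq_nonneg _) (Finset.mem_univ i)
  rw [Real.norm_eq_abs]
  exact (sq_le_one_iff_abs_le_one _).1 h3

theorem mvp_int {σ : Type} (p : MvPolynomial σ ℤ) (h : IsIntegral ℤ p) :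
    ∃ c : ℤ, p = MvPolynomial.C c := by
  classical
  obtain ⟨m, hm, h1⟩ := h
  have h2 : ∏ r ∈ m.roots.toFinset, (p - MvPolynomial.C r) = 0 := by
    apply MvPolynomial.funext
    intro x
    rw [map_zero, map_prod]
    have h3 : m.eval (MvPolynomial.eval x p) = 0 := by
      have h4 := congrArg (MvPolynomial.eval x) h1
      rw [map_zero, Polynomial.hom_eval₂] at h4
      have h5 : (MvPolynomial.eval x).comp (algebraMap ℤ (MvPolynomial σ ℤ)) = RingHom.id ℤ :=
        RingHom.ext_int _ _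
      rw [h5] at h4
      exact h4
    have h6 : MvPolynomial.eval x p ∈ m.roots.toFinset := by
      rw [Multiset.mem_toFinset, Polynomial.mem_roots hm.ne_zero]
      exact h3
    apply Finset.prod_eq_zero h6
    rw [map_sub, MvPolynomial.eval_C, sub_self]
  rw [Finset.prod_eq_zero_iff] at h2
  obtain ⟨r, -, hr⟩ := h2
  exact ⟨r, sub_eq_zero.1 hr⟩

/-- `ℚ` is algebraically closed in `ℚ(x_i : i ∈ σ)`. -/
theorem alg_rat {σ K : Type} [Field K] [CharZero K] [Algebra (MvPolynomial σ ℤ) K]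
    [IsFractionRing (MvPolynomial σ ℤ) K] (a : K) (ha : IsAlgebraic ℚ a) :
    ∃ q : ℚ, a = algebraMap ℚ K q := by
  have h1 : IsAlgebraic ℤ a := (IsFractionRing.isAlgebraic_iff ℤ ℚ _).2 ha
  obtain ⟨n, hn, h2⟩ := h1.exists_integral_multiple
  have h3 : IsIntegral (MvPolynomial σ ℤ) (n • a) := h2.tower_top
  obtain ⟨p, hp⟩ := IsIntegrallyClosed.isIntegral_iff.1 h3
  have h4 : IsIntegral ℤ p := by
    rw [← hp] at h2
    refine (isIntegral_algHom_iff (IsScalarTower.toAlgHom ℤ (MvPolynomial σ ℤ) K) ?_).1 h2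
    exact IsFractionRing.injective _ _
  obtain ⟨c, hc⟩ := mvp_int p h4
  refine ⟨(c : ℚ) / n, ?_⟩
  have hn' : ((n : ℤ) : K) ≠ 0 := Int.cast_ne_zero.2 hn
  rw [map_div₀, map_intCast, map_intCast, eq_div_iff hn']
  rw [hc] at hp
  have h5 : algebraMap (MvPolynomial σ ℤ) K (MvPolynomial.C c) = (c : K) := by
    have : (MvPolynomial.C c : MvPolynomial σ ℤ) = ((c : ℤ) : MvPolynomial σ ℤ) := by
      rw [← eq_intCast (MvPolynomial.C : ℤ →+* MvPolynomial σ ℤ) c]
    rw [this, map_intCast]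
  rw [h5] at hp
  rw [hp, zsmul_eq_mul, mul_comm]

theorem ratfun_real (σ K : Type) [Countable σ] [Field K] [Algebra (MvPolynomial σ ℤ) K]
    [IsFractionRing (MvPolynomial σ ℤ) K] : Nonempty (K →+* ℝ) := by
  obtain ⟨s, hs⟩ := exists_isTranscendenceBasis ℤ ℝ
  have hinf : ¬ Countable s := by
    intro hc
    have h1 : Algebra.IsAlgebraic (Algebra.adjoin ℤ (Set.range (Subtype.val : s → ℝ))) ℝ :=
      hs.isAlgebraic
    have h2 : Cardinal.mk (MvPolynomial s ℤ) ≤ Cardinal.aleph0 := by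
      refine MvPolynomial.cardinalMk_le_max.trans ?_
      rw [max_le_iff, max_le_iff]
      exact ⟨⟨Cardinal.mk_le_aleph0, Cardinal.mk_le_aleph0⟩, le_refl _⟩
    have h3 : Cardinal.mk (Algebra.adjoin ℤ (Set.range (Subtype.val : s → ℝ))) ≤
        Cardinal.aleph0 := by
      rw [← Cardinal.mk_congr hs.1.aevalEquiv.toEquiv]
      exact h2
    have h4 := Algebra.IsAlgebraic.cardinalMk_le_max
      (Algebra.adjoin ℤ (Set.range (Subtype.val : s → ℝ))) ℝ
    rw [max_eq_right h3, Cardinal.mk_real] at h4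
    exact absurd h4 (not_le.2 Cardinal.aleph0_lt_continuum)
  have hinf2 : Infinite s := by
    by_contra hc
    rw [not_infinite_iff_finite] at hc
    exact hinf inferInstance
  obtain ⟨f⟩ : Nonempty (σ ↪ s) := by
    rw [← Cardinal.le_def]
    exact Cardinal.mk_le_aleph0.trans (Cardinal.aleph0_le_mk s)
  have h1 : AlgebraicIndependent ℤ (fun i : σ => ((f i : s) : ℝ)) := hs.1.comp f f.injective
  exact ⟨IsFractionRing.lift (A := MvPolynomial σ ℤ)
    (g := (MvPolynomial.aeval (fun i : σ => ((f i : s) : ℝ)) :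
      MvPolynomial σ ℤ →ₐ[ℤ] ℝ).toRingHom) h1⟩

/-- The groups of orthogonal matrices over `ℚ(x_i : i ∈ σ)` are compact at infinity. -/
theorem cptInf_ratfun (σ : Type) {K : Type} [Countable σ] [Field K] [CharZero K]
    [Algebra (MvPolynomial σ ℤ) K] [IsFractionRing (MvPolynomial σ ℤ) K] {d : ℕ}
    (Γ : Subgroup (GN d K)) (h : ∀ g ∈ Γ, (g : MN d K).transpose * (g : MN d K) = 1) :
    CptInf Γ := by
  apply cptInf_orth Γ h
  intro a ha β hβ
  obtain ⟨q, rfl⟩ := alg_rat (σ := σ) a ha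
  obtain ⟨φ⟩ := ratfun_real σ K
  refine ⟨φ, ?_⟩
  rw [minpoly.eq_X_sub_C, map_sub, Polynomial.aeval_X, Polynomial.aeval_C, sub_eq_zero] at hβ
  rw [hβ, eq_ratCast, eq_ratCast, map_ratCast, Complex.ofReal_ratCast]

end Cpt

end Pool.Agent.BN
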