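import Mathlib
import Pool.Agent.Lib.MP_8f66f0_al_BN.Lat
import Pool.Agent.Lib.MP_8f66f0_al_BN.Desc
import Pool.Agent.Lib.MP_8f66f0_al_Tree.Dvr

/-! From abstract ordered sets of lattices to `GL_d`. -/

set_option autoImplicit false

namespace Pool.Agent.BN

open Pool.Agent.TreeC Pool.Agent.B3

/-- The class `P` is closed under actions of countable groups on ordered sets of lattices. -/
def S_MSP (P : (G : Type) → [Group G] → Prop) : Prop :=
  ∀ (n : ℕ) (G Λ : Type) [Group G] [Countable G] [Lattice Λ] [Nonempty Λ] [MulAction G Λ]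
    (_ : MS n G Λ), (∀ Δ : Subgroup G, (∃ x : Λ, ∀ g ∈ Δ, g • x = x) → P Δ) → P G

/-- THE STATEMENT TO BE PROVED, abstract form. -/
def S_MSKS : Prop := S_MSP KS

private theorem glp_fg (P : (G : Type) → [Group G] → Prop) (hP : TCl P) (h : S_MSP P) (F : Type)
    [Field F] (v : Valuation F (WithZero (Multiplicative ℤ))) (d : ℕ) (Γ : Type) [Group Γ]
    [Countable Γ] (ρ : Γ →* GN d F) (hdet : ∀ g, v (ρ g : MN d F).det = 1)
    (hΔ : ∀ Δ : Subgroup Γ, LatFix v ρ Δ → P Δ) : P Γ := by
  by_cases hv : ∃ x : F, x ≠ 0 ∧ v x ≠ 1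
  · obtain ⟨w, hw⟩ := exists_ord v hv
    have hPID : IsPrincipalIdealRing v.valuationSubring := dvr F v
    let ρ' : Γ →* Gz (d := d) w := ρ.codRestrict (Gz w) fun g => (hw _ (det_ne (ρ g))).2 (hdet g)
    have hne : Nonempty (LL d v.valuationSubring F) := ⟨lt v.valuationSubring 1⟩
    let _ : MulAction Γ (LL d v.valuationSubring F) :=
      MulAction.compHom (LL d v.valuationSubring F) ρ'
    refine h d Γ (LL d v.valuationSubring F) ((ms w).comap ρ') fun Δ hfix => hΔ Δ ?_
    obtain ⟨x, hx⟩ := hfix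
    obtain ⟨u, rfl⟩ := exists_lt x
    refine ⟨u, fun g hg i j => ?_⟩
    have h1 : ρ g • lt v.valuationSubring u = lt v.valuationSubring u := hx g hg
    rw [smul_lt'] at h1
    obtain ⟨c, hc⟩ := lt_le_iff.1 h1.le
    have h2 : ((u⁻¹ * ρ g * u : GN d F) : MN d F) = c.map (algebraMap v.valuationSubring F) := by
      rw [mul_assoc, Units.val_mul, hc, ← Matrix.mul_assoc, ← Units.val_mul, inv_mul_cancel,
        Units.val_one, Matrix.one_mul]
    rw [h2]
    exact (c i j).2
  · push Not at hv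
    have h1 : ∀ x : F, v x ≤ 1 := by
      intro x
      by_cases hx : x = 0
      · rw [hx, map_zero]
        exact zero_le_one
      · exact (hv x hx).le
    exact hP.iso _ _ Subgroup.topEquiv (hΔ ⊤ ⟨1, fun g _ i j => h1 _⟩)

theorem glp_of_msp (P : (G : Type) → [Group G] → Prop) (hP : TCl P) (h : S_MSP P) : S_GLP P := by
  intro F _ v d Γ _ ρ hdet hΔ
  refine hP.directed Γ {K | K.FG} ⟨⊥, Subgroup.FG.bot⟩ ?_ ?_ ?_
  · intro K hK K' hK'
    exact ⟨K ⊔ K', Subgroup.FG.sup hK hK', le_sup_left, le_sup_right⟩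
  · intro g
    exact ⟨Subgroup.closure {g}, ⟨{g}, by simp⟩, Subgroup.subset_closure rfl⟩
  · intro K hK
    have hfg : Group.FG K := (Group.fg_iff_subgroup_fg K).2 hK
    have hc : Countable K := by
      obtain ⟨S, hS, hfin⟩ := Group.fg_iff.1 hfg
      have := hfin.to_subtype
      have hsurj : Function.Surjective (FreeGroup.lift (fun s : S => (s : K))) := by
        rw [← MonoidHom.range_eq_top, FreeGroup.range_lift_eq_closure, Subtype.range_coe, hS]
      exact hsurj.countable
    refine glp_fg P hP h F v d K (ρ.comp K.subtype) (fun g => hdet g) fun Δ hfix => ?_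
    obtain ⟨u, hu⟩ := hfix
    have h1 : LatFix v ρ (Δ.map K.subtype) := by
      refine ⟨u, ?_⟩
      rintro _ ⟨g, hg, rfl⟩
      exact hu g hg
    exact hP.iso _ _ (Δ.equivMapOfInjective K.subtype K.subtype_injective).symm (hΔ _ h1)

theorem glks_of_msks (h : S_MSKS) (hKS : TCl KS) : S_GLKS := glp_of_msp KS hKS h

end Pool.Agent.BN
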