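import Mathlib
import Pool.Agent.Lib.MP_8f66f0_al_HierZ.FinalD
import Pool.Agent.Lib.MP_8f66f0_al_FH.FinalE
import Pool.Agent.Lib.MP_8f66f0_al_CC.GraphDefs
import Pool.Agent.Lib.MP_8f66f0_al_BN.Cpt

/-! The classes of groups of the theorem on linear groups of positive characteristic of arbitrary
degree and actions on the buildings of `GL_d`. (`EA`, elementary amenable, is defined in
`FH/FinalE`; median graphs `IsMedian`, `NoCube` and `IsGCube` are defined in `CC/GraphDefs`;
`LatFix` in `BN/Defs`; `CptInf` in `BN/Cpt`; `IsEuc` and `K1Units` in `HierZ/FinalD`.) -/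

set_option autoImplicit false

namespace Pool.Agent.WhVan

open scoped Pointwise

/-- The least class of groups which contains

* all finite groups;
* all torsion free subgroups of `GL_d(R)`, for all `d` and all commutative rings `R` of positive
  characteristic, and of `GL_2(R)`, for all rings `R` which can be embedded in a purely
  transcendental extension of `ℚ` (the fraction field of the polynomial ring in the variables `σ`
  over `ℤ`);
* all torsion free subgroups `Γ` of `GL_d(K)`, for all `d` and all fields `K` of characteristic `0`,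
  which are bounded at infinity (`BN.CptInf`: for all `a ∈ K` algebraic over `ℚ` and all conjugates
  `β` of `a` in `ℂ` there is an embedding `φ` of `K` in `ℂ` with `φ(a) = β` such that the entries of
  the matrices of `φ(Γ)` are bounded; for example groups of orthogonal matrices over
  `ℚ(x_i : i ∈ σ)`);

and is closed under isomorphism, subgroups, directed unions, extensions, and

* actions on trees with all vertex stabilizers in the class (inversions of edges are allowed, and
  there is no condition on the edge stabilizers);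
* actions on CAT(0) cube complexes of finite dimension with all vertex stabilizers in the class:
  the group acts on the `1`-skeleton `G`, a median graph which contains no cube of dimension
  `N + 1` (inversions are allowed, the graph may be locally infinite, and there is no condition on
  the stabilizers of the cubes);
* actions on the affine buildings of `GL_d`: if `Γ` is mapped by `ρ` to `GL_d(F)`, for a field `F`
  with a discrete valuation `v` (with an arbitrary residue field), the determinants of `ρ(Γ)` have
  the value `1`, and all subgroups `D` of `Γ` which fix a lattice are in the class, then `Γ` is in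
  the class;
* representations `ρ` of `Γ` in `GL_d(R)`, for all `d` and arbitrary commutative rings `R`: if all
  subgroups `D` of `Γ` such that the coefficients of the characteristic polynomials of all elements
  of `ρ(D)` are integral over `ℤ` are in the class, then `Γ` is in the class. -/
inductive YN : (Γ : Type) → [Group Γ] → Prop
  | fin {Γ : Type} [Group Γ] : Finite Γ → YN Γ
  | gl (d : ℕ) (R : Type) [CommRing R] (m : ℕ)
      (Γ : Subgroup (Matrix.GeneralLinearGroup (Fin d) R)) :
      0 < m → (m : R) = 0 → (∀ g ∈ Γ, ∀ n : ℕ, 0 < n → g ^ n = 1 → g = 1) → YN Γ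
  | gl2Q (σ R : Type) [CommRing R] (j : R →+* FractionRing (MvPolynomial σ ℤ))
      (Γ : Subgroup (Matrix.GeneralLinearGroup (Fin 2) R)) : Function.Injective j →
      (∀ g ∈ Γ, ∀ n : ℕ, 0 < n → g ^ n = 1 → g = 1) → YN Γ
  | cpt (d : ℕ) (K : Type) [Field K] [CharZero K]
      (Γ : Subgroup (Matrix.GeneralLinearGroup (Fin d) K)) : BN.CptInf Γ →
      (∀ g ∈ Γ, ∀ n : ℕ, 0 < n → g ^ n = 1 → g = 1) → YN Γ
  | iso {Γ Γ' : Type} [Group Γ] [Group Γ'] (e : Γ ≃* Γ') : YN Γ → YN Γ'
  | sub {Γ : Type} [Group Γ] (H : Subgroup Γ) : YN Γ → YN H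
  | directed {Γ : Type} [Group Γ] (S : Set (Subgroup Γ)) : S.Nonempty →
      DirectedOn (· ≤ ·) S → (∀ g : Γ, ∃ K ∈ S, g ∈ K) → (∀ K ∈ S, YN K) → YN Γ
  | ext {Γ Q : Type} [Group Γ] [Group Q] (f : Γ →* Q) : YN f.ker → YN Q → YN Γ
  | tree {Γ V : Type} [Group Γ] [MulAction Γ V] (T : SimpleGraph V) : T.IsTree →
      (∀ (g : Γ) (v w : V), T.Adj v w → T.Adj (g • v) (g • w)) →
      (∀ v : V, YN (MulAction.stabilizer Γ v)) → YN Γ
  | cube {Γ V : Type} [Group Γ] [MulAction Γ V] (G : SimpleGraph V) (N : ℕ) : CC.IsMedian G →
      CC.NoCube G (N + 1) → (∀ (g : Γ) (v w : V), G.Adj v w → G.Adj (g • v) (g • w)) →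
      (∀ v : V, YN (MulAction.stabilizer Γ v)) → YN Γ
  | bld {Γ : Type} [Group Γ] (F : Type) [Field F] (v : Valuation F (WithZero (Multiplicative ℤ)))
      (d : ℕ) (ρ : Γ →* Matrix.GeneralLinearGroup (Fin d) F) :
      (∀ g, v (ρ g : Matrix (Fin d) (Fin d) F).det = 1) →
      (∀ D : Subgroup Γ, BN.LatFix v ρ D → YN D) → YN Γ
  | red {Γ : Type} [Group Γ] (d : ℕ) (R : Type) [CommRing R]
      (ρ : Γ →* Matrix.GeneralLinearGroup (Fin d) R) :
      (∀ D : Subgroup Γ, (∀ g ∈ D, ∀ k : ℕ,
        IsIntegral ℤ ((ρ g : Matrix (Fin d) (Fin d) R).charpoly.coeff k)) → YN D) → YN Γ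

/-- The least class of groups which contains all torsion free groups of the class `YN`, and is
closed under isomorphism, subgroups, directed unions, extensions, and

* actions on trees without inversions with all vertex stabilizers in the class;
* actions on CAT(0) cube complexes of finite dimension with the stabilizers of all cubes in the
  class: the group acts on the `1`-skeleton `G`, a median graph which contains no cube of dimension
  `N + 1` (it may be locally infinite), and `c` is the set of vertices of a cube;
* actions on the affine buildings of `GL_d` and representations in `GL_d(R)`, as in the definition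
  of `YN`;
* elementary amenable quotients: if `θ` is a homomorphism from `Γ` to an elementary amenable group,
  and all subgroups `U` of `Γ` with finite image `θ(U)` are in the class, then `Γ` is in the
  class.

(All groups in the class are torsion free.) -/
inductive NC : (Γ : Type) → [Group Γ] → Prop
  | yn {Γ : Type} [Group Γ] : YN Γ → (∀ (g : Γ) (n : ℕ), 0 < n → g ^ n = 1 → g = 1) → NC Γ
  | iso {Γ Γ' : Type} [Group Γ] [Group Γ'] (e : Γ ≃* Γ') : NC Γ → NC Γ'
  | sub {Γ : Type} [Group Γ] (H : Subgroup Γ) : NC Γ → NC H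
  | directed {Γ : Type} [Group Γ] (S : Set (Subgroup Γ)) : S.Nonempty →
      DirectedOn (· ≤ ·) S → (∀ g : Γ, ∃ K ∈ S, g ∈ K) → (∀ K ∈ S, NC K) → NC Γ
  | ext {Γ Q : Type} [Group Γ] [Group Q] (f : Γ →* Q) : NC f.ker → NC Q → NC Γ
  | tree {Γ V : Type} [Group Γ] [MulAction Γ V] (T : SimpleGraph V) : T.IsTree →
      (∀ (g : Γ) (v w : V), T.Adj v w → T.Adj (g • v) (g • w)) →
      (∀ (g : Γ) (v w : V), T.Adj v w → ¬ (g • v = w ∧ g • w = v)) →
      (∀ v : V, NC (MulAction.stabilizer Γ v)) → NC Γ
  | cube {Γ V : Type} [Group Γ] [MulAction Γ V] (G : SimpleGraph V) (N : ℕ) : CC.IsMedian G →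
      CC.NoCube G (N + 1) → (∀ (g : Γ) (v w : V), G.Adj v w → G.Adj (g • v) (g • w)) →
      (∀ c : Set V, CC.IsGCube G c → NC (MulAction.stabilizer Γ c)) → NC Γ
  | bld {Γ : Type} [Group Γ] (F : Type) [Field F] (v : Valuation F (WithZero (Multiplicative ℤ)))
      (d : ℕ) (ρ : Γ →* Matrix.GeneralLinearGroup (Fin d) F) :
      (∀ g, v (ρ g : Matrix (Fin d) (Fin d) F).det = 1) →
      (∀ D : Subgroup Γ, BN.LatFix v ρ D → NC D) → NC Γ
  | red {Γ : Type} [Group Γ] (d : ℕ) (R : Type) [CommRing R]
      (ρ : Γ →* Matrix.GeneralLinearGroup (Fin d) R) :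
      (∀ D : Subgroup Γ, (∀ g ∈ D, ∀ k : ℕ,
        IsIntegral ℤ ((ρ g : Matrix (Fin d) (Fin d) R).charpoly.coeff k)) → NC D) → NC Γ
  | ea {Γ Q : Type} [Group Γ] [Group Q] (θ : Γ →* Q) : EA Q →
      (∀ U : Subgroup Γ, Finite (U.map θ) → NC U) → NC Γ

end Pool.Agent.WhVan
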