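import Pool.Agent.Lib.MP_8f66f0_al_BN.NCT
import Pool.Agent.Lib.MP_8f66f0_al_GLC.AllC
import Pool.Agent.Lib.MP_8f66f0_al_FL.All
import Pool.Agent.Lib.MP_8f66f0_al_BB.All

/-! The theorem on the class `NC`. -/

set_option autoImplicit false

namespace Pool.Agent.WhVan

/-- The theorem on actions on modular lattices with a shift. -/
theorem shp_ks : BN.S_SHP TreeC.KS :=
  GLC.shp_of BB.sBB FL.pBc FL.pM2K FL.pE FL.pHom FL.pEnd0

theorem nc_all {Γ : Type} [Group Γ] (h : NC Γ) (L : Type) [CommRing L] [IsDomain L]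
    (hL : IsEuc L) : K1Units L Γ :=
  nc_of_shp shp_ks h L hL

end Pool.Agent.WhVan
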