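import Mathlib
import Pool.Agent.Lib.MP_8f66f0_al_BN.Cnt
import Pool.Agent.Lib.MP_8f66f0_al_GLA.Defs

/-! Part A, E7: the statement `S_GLP` on `GL_d` from the abstract geometry `ShL`, `ShAct`. -/

set_option autoImplicit false

namespace Pool.Agent.BN

open Pool.Agent.TreeC Pool.Agent.GLA

/-- The class `P` is closed under actions of countable groups on countable lattices `M` with a
shift (`ShL`). -/
def S_SHP (P : (G : Type) → [Group G] → Prop) : Prop :=
  ∀ (M : Type) [ShL M] [Countable M] [Nonempty M] (Γ : Type) [Group Γ] [Countable Γ]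
    [ShAct Γ M], (∀ Δ : Subgroup Γ, (∃ a : M, ∀ g ∈ Δ, g • a = a) → P Δ) → P Γ

section

variable {n : ℕ} {G Λ : Type} [Group G] [Lattice Λ] [MulAction G Λ] (S : MS n G Λ)

theorem MS.sh_iter (k : ℕ) (x : Λ) : (S.sh 1)^[k] x = S.sh k x := by
  induction k generalizing x with
  | zero => rw [Function.iterate_zero, id, Nat.cast_zero, S.sh_zero]
  | succ k ih => rw [Function.iterate_succ_apply, ih, ← S.sh_add, Nat.cast_succ]

/-- The structure `ShL` of an `MS`-structure. -/
@[reducible] def MS.shL (hn : 0 < n) (hc : S.Cov) : ShL Λ where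
  ht x := - S.vol x
  per := n
  sh := S.sh 1
  shi := S.sh (-1)
  per_pos := hn
  sh_shi x := S.sh_neg' 1 x
  shi_sh x := S.sh_neg 1 x
  sh_mono x y h := S.sh_mono 1 x y h
  shi_mono x y h := S.sh_mono (-1) x y h
  sh_le := S.sh_one
  ht_sh x := by
    rw [S.vol_sh]
    ring
  ht_lt x y h := by
    have := S.vol_lt x y h
    omega
  ht_mod x y := by
    have := S.vol_sup_inf x y
    omega
  arch x y := by
    obtain ⟨k, hk⟩ := S.exists_nat_sh x y
    exact ⟨k, by rw [S.sh_iter]; exact hk⟩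
  cover x y h := by
    obtain ⟨c, h1, h2, h3⟩ := hc x y h
    exact ⟨c, h1, h2, by omega⟩

/-- The structure `ShAct` of an `MS`-structure. -/
@[reducible] def MS.shAct (hn : 0 < n) (hc : S.Cov) : @ShAct G Λ _ (S.shL hn hc) :=
  let _ : ShL Λ := S.shL hn hc
  { smul_mono := S.smul_le
    smul_sh := fun g a => S.smul_sh g 1 a
    ht_smul := fun g a => by
      change - S.vol (g • a) = - S.vol a
      rw [S.smul_vol] }

end

theorem mcp_of_shp (P : (G : Type) → [Group G] → Prop) (h : S_SHP P) : S_MCP P := by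
  intro n G Λ _ _ _ _ _ _ S hn hc hΔ
  let _ : ShL Λ := S.shL hn hc
  let _ : ShAct G Λ := S.shAct hn hc
  exact h Λ G hΔ

/-- E7. -/
theorem glp_of_shp (P : (G : Type) → [Group G] → Prop) (hP : TCl P) (h : S_SHP P) : S_GLP P :=
  glp_of_mcp P hP (mcp_of_shp P h)

end Pool.Agent.BN
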