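import Mathlib
import Pool.Agent.Lib.MP_8f66f0_al_BN.Shl
import Pool.Agent.Lib.MP_8f66f0_al_TQ.YYC

/-! Removing the countability from the statement `S_SHP` on lattices with a shift. -/

set_option autoImplicit false

namespace Pool.Agent.BN

open Pool.Agent.TreeC Pool.Agent.GLA

/-- The class `P` is closed under actions on lattices `M` with a shift (`ShL`). -/
def S_SHA (P : (G : Type) → [Group G] → Prop) : Prop :=
  ∀ (M : Type) [ShL M] [Nonempty M] (Γ : Type) [Group Γ] [ShAct Γ M],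
    (∀ Δ : Subgroup Γ, (∃ a : M, ∀ g ∈ Δ, g • a = a) → P Δ) → P Γ

section

variable {M : Type} [ShL M] {K : Type} [Group K] [ShAct K M]

/-- One step of the closure. -/
private def stepS (K : Type) [Group K] [ShAct K M] (cv : M → M → M) (S : Set M) : Set M :=
  S ∪ Set.image2 (· ⊔ ·) S S ∪ Set.image2 (· ⊓ ·) S S ∪ sh '' S ∪ shi '' S ∪
    Set.image2 (fun (g : K) a => g • a) Set.univ S ∪ Set.image2 cv S S

private def clS (K : Type) [Group K] [ShAct K M] (cv : M → M → M) (a0 : M) : ℕ → Set M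
  | 0 => {a0}
  | n + 1 => stepS K cv (clS K cv a0 n)

variable (cv : M → M → M) (a0 : M)

private theorem clS_succ (n : ℕ) : clS K cv a0 n ⊆ clS K cv a0 (n + 1) := by
  intro x hx
  change x ∈ stepS K cv (clS K cv a0 n)
  simp only [stepS, Set.mem_union]
  tauto

private theorem clS_mono {m n : ℕ} (h : m ≤ n) : clS K cv a0 m ⊆ clS K cv a0 n :=
  monotone_nat_of_le_succ (fun n => clS_succ cv a0 n) h

private theorem clS_countable [Countable K] (n : ℕ) : (clS K cv a0 n).Countable := by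
  induction n with
  | zero => exact Set.countable_singleton a0
  | succ n ih =>
    change (stepS K cv (clS K cv a0 n)).Countable
    unfold stepS
    refine (((((ih.union ?_).union ?_).union ?_).union ?_).union ?_).union ?_
    · exact ih.image2 ih _
    · exact ih.image2 ih _
    · exact ih.image _
    · exact ih.image _
    · exact (Set.countable_univ).image2 ih _
    · exact ih.image2 ih _

/-- The closure of a point. -/
private def M0 (K : Type) [Group K] [ShAct K M] (cv : M → M → M) (a0 : M) : Set M :=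
  ⋃ n, clS K cv a0 n

private theorem M0_countable [Countable K] : (M0 K cv a0).Countable :=
  Set.countable_iUnion fun n => clS_countable cv a0 n

private theorem M0_base : a0 ∈ M0 K cv a0 := Set.mem_iUnion.2 ⟨0, rfl⟩

private theorem M0_two (f : M → M → M)
    (hf : ∀ n, Set.image2 f (clS K cv a0 n) (clS K cv a0 n) ⊆ clS K cv a0 (n + 1)) {a b : M}
    (ha : a ∈ M0 K cv a0) (hb : b ∈ M0 K cv a0) : f a b ∈ M0 K cv a0 := by
  obtain ⟨m, hm⟩ := Set.mem_iUnion.1 ha
  obtain ⟨n, hn⟩ := Set.mem_iUnion.1 hb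
  exact Set.mem_iUnion.2 ⟨max m n + 1, hf _ ⟨a, clS_mono cv a0 (le_max_left m n) hm, b,
    clS_mono cv a0 (le_max_right m n) hn, rfl⟩⟩

private theorem M0_sup {a b : M} (ha : a ∈ M0 K cv a0) (hb : b ∈ M0 K cv a0) :
    a ⊔ b ∈ M0 K cv a0 := by
  refine M0_two cv a0 (· ⊔ ·) (fun n x hx => ?_) ha hb
  change x ∈ stepS K cv (clS K cv a0 n)
  simp only [stepS, Set.mem_union]
  tauto

private theorem M0_inf {a b : M} (ha : a ∈ M0 K cv a0) (hb : b ∈ M0 K cv a0) :
    a ⊓ b ∈ M0 K cv a0 := by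
  refine M0_two cv a0 (· ⊓ ·) (fun n x hx => ?_) ha hb
  change x ∈ stepS K cv (clS K cv a0 n)
  simp only [stepS, Set.mem_union]
  tauto

private theorem M0_cv {a b : M} (ha : a ∈ M0 K cv a0) (hb : b ∈ M0 K cv a0) :
    cv a b ∈ M0 K cv a0 := by
  refine M0_two cv a0 cv (fun n x hx => ?_) ha hb
  change x ∈ stepS K cv (clS K cv a0 n)
  simp only [stepS, Set.mem_union]
  tauto

private theorem M0_sh {a : M} (ha : a ∈ M0 K cv a0) : sh a ∈ M0 K cv a0 := by
  obtain ⟨m, hm⟩ := Set.mem_iUnion.1 ha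
  refine Set.mem_iUnion.2 ⟨m + 1, ?_⟩
  have h1 : sh a ∈ sh '' (clS K cv a0 m) := ⟨a, hm, rfl⟩
  change sh a ∈ stepS K cv (clS K cv a0 m)
  simp only [stepS, Set.mem_union]
  tauto

private theorem M0_shi {a : M} (ha : a ∈ M0 K cv a0) : shi a ∈ M0 K cv a0 := by
  obtain ⟨m, hm⟩ := Set.mem_iUnion.1 ha
  refine Set.mem_iUnion.2 ⟨m + 1, ?_⟩
  have h1 : shi a ∈ shi '' (clS K cv a0 m) := ⟨a, hm, rfl⟩
  change shi a ∈ stepS K cv (clS K cv a0 m)
  simp only [stepS, Set.mem_union]
  tauto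

private theorem M0_smul (g : K) {a : M} (ha : a ∈ M0 K cv a0) : g • a ∈ M0 K cv a0 := by
  obtain ⟨m, hm⟩ := Set.mem_iUnion.1 ha
  refine Set.mem_iUnion.2 ⟨m + 1, ?_⟩
  have h1 : g • a ∈ Set.image2 (fun (g : K) a => g • a) Set.univ (clS K cv a0 m) :=
    ⟨g, Set.mem_univ g, a, hm, rfl⟩
  change g • a ∈ stepS K cv (clS K cv a0 m)
  simp only [stepS, Set.mem_union]
  tauto

/-- The closure as a sublattice. -/
private def SL (K : Type) [Group K] [ShAct K M] (cv : M → M → M) (a0 : M) : Sublattice M where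
  carrier := M0 K cv a0
  supClosed' := fun _ ha _ hb => M0_sup cv a0 ha hb
  infClosed' := fun _ ha _ hb => M0_inf cv a0 ha hb

@[reducible] private noncomputable def slShL
    (hcv : ∀ a b : M, a < b → a ≤ cv a b ∧ cv a b < b ∧ ht (cv a b) = ht b - 1) :
    ShL (SL K cv a0) where
  ht x := ht x.1
  per := per M
  sh x := ⟨sh x.1, M0_sh cv a0 x.2⟩
  shi x := ⟨shi x.1, M0_shi cv a0 x.2⟩
  per_pos := ShL.per_pos
  sh_shi x := Subtype.ext (ShL.sh_shi x.1)
  shi_sh x := Subtype.ext (ShL.shi_sh x.1)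
  sh_mono x y h := ShL.sh_mono x.1 y.1 h
  shi_mono x y h := ShL.shi_mono x.1 y.1 h
  sh_le x := ShL.sh_le x.1
  ht_sh x := ShL.ht_sh x.1
  ht_lt x y h := ShL.ht_lt x.1 y.1 h
  ht_mod x y := ShL.ht_mod x.1 y.1
  arch x y := by
    obtain ⟨k, hk⟩ := ShL.arch x.1 y.1
    refine ⟨k, ?_⟩
    have h1 : ∀ (m : ℕ) (z : SL K cv a0),
        (((fun x : SL K cv a0 => (⟨sh x.1, M0_sh cv a0 x.2⟩ : SL K cv a0))^[m] z : SL K cv a0) :
          M) = sh^[m] z.1 := by
      intro m
      induction m with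
      | zero => intro z; rfl
      | succ m ih =>
        intro z
        rw [Function.iterate_succ_apply, Function.iterate_succ_apply, ih]
    change (((fun x : SL K cv a0 => (⟨sh x.1, M0_sh cv a0 x.2⟩ : SL K cv a0))^[k] x :
      SL K cv a0) : M) ≤ y.1
    rw [h1]
    exact hk
  cover x y h := by
    obtain ⟨h1, h2, h3⟩ := hcv x.1 y.1 h
    exact ⟨⟨cv x.1 y.1, M0_cv cv a0 x.2 y.2⟩, h1, h2, h3⟩

@[reducible] private noncomputable def slAct
    (hcv : ∀ a b : M, a < b → a ≤ cv a b ∧ cv a b < b ∧ ht (cv a b) = ht b - 1) :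
    @ShAct K (SL K cv a0) _ (slShL cv a0 hcv) :=
  let _ : ShL (SL K cv a0) := slShL cv a0 hcv
  { smul := fun g x => ⟨g • x.1, M0_smul cv a0 g x.2⟩
    one_smul := fun x => Subtype.ext (one_smul K x.1)
    mul_smul := fun g h x => Subtype.ext (mul_smul g h x.1)
    smul_mono := fun g x y h => ShAct.smul_mono g x.1 y.1 h
    smul_sh := fun g x => Subtype.ext (ShAct.smul_sh g x.1)
    ht_smul := fun g x => ShAct.ht_smul g x.1 }

private theorem sha_c (P : (G : Type) → [Group G] → Prop) (h : S_SHP P) [Countable K]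
    [Nonempty M] (hΔ : ∀ Δ : Subgroup K, (∃ a : M, ∀ g ∈ Δ, g • a = a) → P Δ) : P K := by
  classical
  have hex : ∀ a b : M, ∃ c, a < b → a ≤ c ∧ c < b ∧ ht c = ht b - 1 := by
    intro a b
    by_cases hab : a < b
    · obtain ⟨c, hc⟩ := ShL.cover a b hab
      exact ⟨c, fun _ => hc⟩
    · exact ⟨a, fun h => absurd h hab⟩
  choose cv hcv using hex
  let a0 : M := Classical.arbitrary M
  let _ : ShL (SL K cv a0) := slShL cv a0 hcv
  let _ : ShAct K (SL K cv a0) := slAct cv a0 hcv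
  have hc : Countable (SL K cv a0) := Set.countable_coe_iff.2 (M0_countable cv a0)
  have hne : Nonempty (SL K cv a0) := ⟨⟨a0, M0_base cv a0⟩⟩
  refine h (SL K cv a0) K fun Δ hfix => hΔ Δ ?_
  obtain ⟨a, ha⟩ := hfix
  exact ⟨a.1, fun g hg => congrArg Subtype.val (ha g hg)⟩

end

/-- Countability is no restriction. -/
theorem sha_of_shp (P : (G : Type) → [Group G] → Prop) (hP : TCl P) (h : S_SHP P) : S_SHA P := by
  intro M _ _ Γ _ _ hΔ
  refine hP.directed Γ {K | K.FG} ⟨⊥, Subgroup.FG.bot⟩ ?_ ?_ ?_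
  · intro K hK K' hK'
    exact ⟨K ⊔ K', Subgroup.FG.sup hK hK', le_sup_left, le_sup_right⟩
  · intro g
    exact ⟨Subgroup.closure {g}, ⟨{g}, by simp⟩, Subgroup.subset_closure rfl⟩
  · intro K hK
    have hfg : Group.FG K := (Group.fg_iff_subgroup_fg K).2 hK
    have hc : Countable K := by
      obtain ⟨S, hS, hfin⟩ := Group.fg_iff.1 hfg
      have := hfin.to_subtype
      have hsurj : Function.Surjective (FreeGroup.lift (fun s : S => (s : K))) := by
        rw [← MonoidHom.range_eq_top, FreeGroup.range_lift_eq_closure, Subtype.range_coe, hS]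
      exact hsurj.countable
    let _ : ShAct K M :=
      { smul_mono := fun g a b h => ShAct.smul_mono (g : Γ) a b h
        smul_sh := fun g a => ShAct.smul_sh (g : Γ) a
        ht_smul := fun g a => ShAct.ht_smul (g : Γ) a }
    refine sha_c (M := M) P h fun Δ hfix => ?_
    obtain ⟨a, ha⟩ := hfix
    have h1 : ∃ a : M, ∀ g ∈ Δ.map K.subtype, g • a = a := by
      refine ⟨a, ?_⟩
      rintro _ ⟨g, hg, rfl⟩
      exact ha g hg
    exact hP.iso _ _ (Δ.equivMapOfInjective K.subtype K.subtype_injective).symm (hΔ _ h1)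

section

variable {P : (G : Type) → [Group G] → Prop}

/-- Subgroups. -/
theorem sha_hd (hP : TCl P) (h : S_SHA P) : S_SHA (Hd P) := by
  intro M _ _ Γ _ _ hΔ H
  let _ : ShAct H M :=
    { smul_mono := fun g a b h => ShAct.smul_mono (g : Γ) a b h
      smul_sh := fun g a => ShAct.smul_sh (g : Γ) a
      ht_smul := fun g a => ShAct.ht_smul (g : Γ) a }
  refine h M H fun Δ hfix => ?_
  obtain ⟨a, ha⟩ := hfix
  have h1 : ∃ a : M, ∀ g ∈ Δ.map H.subtype, g • a = a := by
    refine ⟨a, ?_⟩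
    rintro _ ⟨g, hg, rfl⟩
    exact ha g hg
  have h2 : P (Δ.map H.subtype) := hP.iso _ _ Subgroup.topEquiv (hΔ _ h1 ⊤)
  exact hP.iso _ _ (Δ.equivMapOfInjective H.subtype H.subtype_injective).symm h2

/-- Extensions. -/
theorem sha_star (hP : TClv P) (h : S_SHA P) : S_SHA (Star P) := by
  intro M _ _ Γ _ _ hΔ G _ f hf
  let _ : ShAct G M :=
    { toMulAction := MulAction.compHom M f
      smul_mono := fun g a b h => ShAct.smul_mono (f g) a b h
      smul_sh := fun g a => ShAct.smul_sh (f g) a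
      ht_smul := fun g a => ShAct.ht_smul (f g) a }
  refine h M G fun Δ hfix => ?_
  obtain ⟨a, ha⟩ := hfix
  have h0 : ∃ a : M, ∀ g ∈ Δ.map f, g • a = a := by
    refine ⟨a, ?_⟩
    rintro _ ⟨g, hg, rfl⟩
    exact ha g hg
  have h1 : P ((Δ.map f).comap f) := Pool.Agent.TQ.star_comap3 hP f hf _ (hΔ _ h0)
  have hle : Δ ≤ (Δ.map f).comap f := Subgroup.le_comap_map f Δ
  exact hP.iso _ _ (Subgroup.subgroupOfEquivOfLe hle) (hP.sub _ (Δ.subgroupOf _) h1)

end

end Pool.Agent.BN
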