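import Mathlib
import Pool.Agent.Lib.MP_8f66f0_al_BN.Unc
import Pool.Agent.Lib.MP_8f66f0_al_TQ.YYC

/-! Twisted powers of lattices with a shift: commensurable groups. -/

set_option autoImplicit false

namespace Pool.Agent.BN

open scoped Pointwise
open Pool.Agent.TreeC Pool.Agent.GLA Pool.Agent.QT Pool.Agent.TQ Pool.Agent.CC

section

variable {Γ G Q M : Type} [Group Γ] [Group G] [MulAction Γ Q] [Fintype Q] [Nonempty Q]
  (D : Coc Γ G Q) [ShL M] [ShAct G M]

theorem sh_iter_le (k : ℕ) (a : M) : sh^[k] a ≤ a := by
  induction k with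
  | zero => exact le_rfl
  | succ k ih =>
    rw [Function.iterate_succ_apply']
    exact (ShL.sh_le _).trans ih

variable (Q M) in
/-- The power of a lattice with a shift. -/
@[reducible] noncomputable def piShL : ShL (Q → M) :=
  { (inferInstance : Lattice (Q → M)) with
    ht := fun x => ∑ q, ht (x q)
    per := Fintype.card Q * per M
    sh := fun x q => sh (x q)
    shi := fun x q => shi (x q)
    per_pos := Nat.mul_pos Fintype.card_pos ShL.per_pos
    sh_shi := fun x => funext fun q => ShL.sh_shi (x q)
    shi_sh := fun x => funext fun q => ShL.shi_sh (x q)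
    sh_mono := fun x y h q => ShL.sh_mono (x q) (y q) (h q)
    shi_mono := fun x y h q => ShL.shi_mono (x q) (y q) (h q)
    sh_le := fun x q => ShL.sh_le (x q)
    ht_sh := by
      intro x
      have h1 : ∀ q, ht (sh (x q)) = ht (x q) - per M := fun q => ShL.ht_sh (x q)
      change ∑ q, ht (sh (x q)) = ∑ q, ht (x q) - _
      rw [Finset.sum_congr rfl fun q _ => h1 q, Finset.sum_sub_distrib, Finset.sum_const,
        Finset.card_univ, nsmul_eq_mul]
      push_cast
      rfl
    ht_lt := by
      intro x y h
      obtain ⟨h1, q, h2⟩ := Pi.lt_def.1 h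
      have h3 : ∀ a b : M, a ≤ b → ht a ≤ ht b := by
        intro a b hab
        rcases hab.lt_or_eq with h | rfl
        · exact (ShL.ht_lt _ _ h).le
        · exact le_rfl
      exact Finset.sum_lt_sum (fun q _ => h3 _ _ (h1 q)) ⟨q, Finset.mem_univ q, ShL.ht_lt _ _ h2⟩
    ht_mod := by
      intro x y
      change ∑ q, ht (x q ⊔ y q) + ∑ q, ht (x q ⊓ y q) = ∑ q, ht (x q) + ∑ q, ht (y q)
      rw [← Finset.sum_add_distrib, ← Finset.sum_add_distrib]
      exact Finset.sum_congr rfl fun q _ => ShL.ht_mod (x q) (y q)
    arch := by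
      intro x y
      choose k hk using fun q => ShL.arch (x q) (y q)
      refine ⟨∑ q, k q, fun q => ?_⟩
      have h1 : ∀ (m : ℕ) (z : Q → M), ((fun (z : Q → M) q => sh (z q))^[m] z) q =
          sh^[m] (z q) := by
        intro m
        induction m with
        | zero => intro z; rfl
        | succ m ih =>
          intro z
          rw [Function.iterate_succ_apply, Function.iterate_succ_apply, ih]
      have h5 := h1 (∑ q, k q) x
      change ((fun (z : Q → M) q => sh (z q))^[∑ q, k q] x) q ≤ y q
      rw [h5]
      have h2 : k q ≤ ∑ q, k q := Finset.single_le_sum (fun _ _ => Nat.zero_le _)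
        (Finset.mem_univ q)
      obtain ⟨l, hl⟩ := Nat.exists_eq_add_of_le h2
      rw [hl, add_comm, Function.iterate_add_apply]
      exact (sh_iter_le l _).trans (hk q)
    cover := by
      classical
      intro x y h
      obtain ⟨h1, q, h2⟩ := Pi.lt_def.1 h
      obtain ⟨c, hc1, hc2, hc3⟩ := ShL.cover (x q) (y q) h2
      refine ⟨Function.update y q c, ?_, ?_, ?_⟩
      · intro r
        by_cases hr : r = q
        · subst hr
          rw [Function.update_self]
          exact hc1
        · rw [Function.update_of_ne hr]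
          exact h1 r
      · refine Pi.lt_def.2 ⟨fun r => ?_, q, ?_⟩
        · by_cases hr : r = q
          · subst hr
            rw [Function.update_self]
            exact hc2.le
          · rw [Function.update_of_ne hr]
        · rw [Function.update_self]
          exact hc2
      · change ∑ r, ht (Function.update y q c r) = ∑ r, ht (y r) - 1
        rw [← Finset.add_sum_erase _ _ (Finset.mem_univ q),
          ← Finset.add_sum_erase (Finset.univ : Finset Q) (fun r => ht (y r)) (Finset.mem_univ q),
          Function.update_self, hc3]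
        have h4 : ∑ r ∈ Finset.univ.erase q, ht (Function.update y q c r) =
            ∑ r ∈ Finset.univ.erase q, ht (y r) := by
          refine Finset.sum_congr rfl fun r hr => ?_
          rw [Function.update_of_ne (Finset.ne_of_mem_erase hr)]
        rw [h4]
        ring }

/-- The twisted power of a lattice with a shift. -/
@[reducible] noncomputable def powShL : ShL (PowT D M) := (piShL Q M : ShL (Q → M))

@[reducible] noncomputable def powAct : @ShAct Γ (PowT D M) _ (powShL D) :=
  let _ : ShL (PowT D M) := powShL D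
  { (inferInstance : MulAction Γ (PowT D M)) with
    smul_mono := fun g a b h q => ShAct.smul_mono (D.c g (g⁻¹ • q)) _ _ (h (g⁻¹ • q))
    smul_sh := fun g a => funext fun q => ShAct.smul_sh (D.c g (g⁻¹ • q)) (a (g⁻¹ • q))
    ht_smul := by
      intro g a
      change ∑ q, ht (D.c g (g⁻¹ • q) • a (g⁻¹ • q)) = ∑ q, ht (a q)
      rw [Finset.sum_congr rfl fun q _ => ShAct.ht_smul (D.c g (g⁻¹ • q)) (a (g⁻¹ • q))]
      exact Fintype.sum_equiv (MulAction.toPerm g⁻¹) _ _ fun q => rfl }

end

section

variable {P : (G : Type) → [Group G] → Prop}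

/-- Actions of commensurable groups. -/
theorem pc_sha (h : S_SHA P) : S_SHA (PC P) := by
  intro M _ _ G _ _ hv Λ _ hΛ H hHf f hf
  have hfin : Finite (Λ ⧸ H) := inferInstance
  let _ : Fintype (Λ ⧸ H) := Fintype.ofFinite _
  let _ : ShL (PowT (cocOf H f) M) := powShL (cocOf H f)
  let _ : ShAct Λ (PowT (cocOf H f) M) := powAct (cocOf H f)
  have hne : Nonempty (PowT (cocOf H f) M) := ⟨fun _ : Λ ⧸ H => Classical.arbitrary M⟩
  refine h (PowT (cocOf H f) M) Λ fun C hC => ?_
  obtain ⟨w, hw⟩ := hC
  let c : Tw (cocOf H f) (Set M) := fun q => some {w q}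
  have hfix : ∀ g ∈ C, g • c = c := by
    intro g hg
    refine ((tw_eq_iff (D := cocOf H f) g c c).2 fun q => ?_).symm
    change some {w (g • q)} = some ((cocOf H f).c g q • ({w q} : Set M))
    have h1 : g • w = w := hw g hg
    have h2 : (g • w) (g • q) = (cocOf H f).c g q • w q := powT_smul (D := cocOf H f) g w q
    rw [h1] at h2
    rw [Set.smul_set_singleton, ← h2]
  obtain ⟨C', φ, h1, h2, h3⟩ := lab_emb H hHf f hf C c hfix (QuotientGroup.mk 1) _ rfl
  refine hv (MulAction.stabilizer G (w (QuotientGroup.mk 1)))
    ⟨w (QuotientGroup.mk 1), fun g hg => hg⟩ _ (hΛ.sub _) C' h1 (φ.codRestrict _ fun y => ?_)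
    fun a b hab => h2 (congrArg (fun z : MulAction.stabilizer G (w (QuotientGroup.mk 1)) =>
      (z : G)) hab)
  have h4 := h3 y
  rw [Set.smul_set_singleton] at h4
  exact Set.singleton_injective h4

end

end Pool.Agent.BN
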