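import Mathlib
import Pool.Agent.Lib.MP_8f66f0_al_BN.Gl
import Pool.Agent.Lib.MP_8f66f0_al_TQ.YYC

/-! Closure under actions on buildings of `GL_d`: subgroups and extensions. -/

set_option autoImplicit false

namespace Pool.Agent.BN

open Pool.Agent.TreeC Pool.Agent.TQ

variable {P : (G : Type) → [Group G] → Prop}

theorem latFix_mono {F : Type} [Field F] {v : Valuation F (WithZero (Multiplicative ℤ))} {d : ℕ}
    {Γ : Type} [Group Γ] {ρ : Γ →* GN d F} {Δ Δ' : Subgroup Γ} (h : Δ' ≤ Δ)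
    (hΔ : LatFix v ρ Δ) : LatFix v ρ Δ' := by
  obtain ⟨u, hu⟩ := hΔ
  exact ⟨u, fun g hg => hu g (h hg)⟩

theorem latFix_map {F : Type} [Field F] {v : Valuation F (WithZero (Multiplicative ℤ))} {d : ℕ}
    {Γ G : Type} [Group Γ] [Group G] {ρ : Γ →* GN d F} (f : G →* Γ) {Δ : Subgroup G}
    (hΔ : LatFix v (ρ.comp f) Δ) : LatFix v ρ (Δ.map f) := by
  obtain ⟨u, hu⟩ := hΔ
  refine ⟨u, ?_⟩
  rintro _ ⟨g, hg, rfl⟩
  exact hu g hg

/-- Subgroups. -/
theorem glp_hd (hP : TCl P) (h : S_GLP P) : S_GLP (Hd P) := by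
  intro F _ v d Γ _ ρ hdet hΔ H
  refine h F v d H (ρ.comp H.subtype) (fun g => hdet g) fun Δ hfix => ?_
  have h1 : Hd P (Δ.map H.subtype) := hΔ _ (latFix_map H.subtype hfix)
  have h2 : P (Δ.map H.subtype) := hP.iso _ _ Subgroup.topEquiv (h1 ⊤)
  exact hP.iso _ _ (Δ.equivMapOfInjective H.subtype H.subtype_injective).symm h2

/-- Extensions. -/
theorem glp_star (hP : TClv P) (h : S_GLP P) : S_GLP (Star P) := by
  intro F _ v d Γ _ ρ hdet hΔ G _ f hf
  refine h F v d G (ρ.comp f) (fun g => hdet (f g)) fun Δ hfix => ?_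
  have h1 : P ((Δ.map f).comap f) := star_comap3 hP f hf _ (hΔ _ (latFix_map f hfix))
  have hle : Δ ≤ (Δ.map f).comap f := Subgroup.le_comap_map f Δ
  exact hP.iso _ _ (Subgroup.subgroupOfEquivOfLe hle) (hP.sub _ (Δ.subgroupOf _) h1)

end Pool.Agent.BN
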