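import Pool.Agent.Lib.MP_8f66f0_al_TQ.VVS
import Pool.Agent.Lib.MP_8f66f0_al_BN.Star
import Pool.Agent.Lib.MP_8f66f0_al_BN.PowL
import Pool.Agent.Lib.MP_8f66f0_al_BN.NCD

/-! The theorem on the class `NC`, for the statement `S_SHP KS` on lattices with a shift. -/

set_option autoImplicit false

namespace Pool.Agent.WhVan

open Pool.Agent Pool.Agent.TreeC Pool.Agent.Cx2 Pool.Agent.QT Pool.Agent.TQ Pool.Agent.CC Pool.Agent.FH
  Pool.Agent.BN

section

variable {P : (G : Type) → [Group G] → Prop}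

theorem ncl_of_sha (hP : TCl P) (h : S_SHA P) : NCl P :=
  ⟨hP, glp_of_shp P hP fun M _ _ _ Γ _ _ _ => h M Γ⟩

/-- All extensions of groups of the class by groups with `PC P` have `PC P`. -/
theorem yn_star' (hP : TClv P) (hTQ : S_TQP P) (hCC : S_CCP P) (hSh : S_SHA P) {Γ : Type}
    [Group Γ] (h : YN Γ) : Star (PC P) Γ := by
  have h1 : TClv (PC P) := pc_tclv hP hTQ
  have h2 : TClv (Star (PC P)) := (star (PC P) h1).1
  have h3 := (star (PC P) h1).2
  have h4 : TCl (Star (PC P)) :=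
    ⟨h2.triv, h2.iso, h2.directed, fun G V _ _ _ 𝓗 hH hx _ => h2.tree G V 𝓗 hH hx⟩
  have h5 : S_CCI (Star (PC P)) := cci_star h1 (pc_cci hCC)
  have h6 : S_SHA (Star (PC P)) := sha_star h1 (pc_sha hSh)
  have h7 : NCl (Star (PC P)) := ncl_of_sha h4 h6
  induction h with
  | fin h => exact star_finite' _ h
  | gl d R m Γ hm hR hΓ => exact gl_all _ h7 d R m hm hR Γ hΓ
  | gl2Q σ R j Γ hj hΓ => exact TreeQ.glQ_all _ h4 σ R j hj Γ hΓ
  | cpt d K Γ hc hΓ => exact cpt_all _ h7 d K Γ hc hΓ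
  | iso e _ ih => exact h2.iso _ _ e ih
  | sub H _ ih => exact h2.sub _ H ih
  | directed S hne hd hS _ ih => exact h2.directed _ S hne hd hS ih
  | ext f _ _ ih1 ih2 => exact h3 _ _ f ih1 ih2
  | tree T hT hadj _ ih => exact tree_any h2 (fun G _ K => star_fi' h1 G K) T hT hadj ih
  | @cube Γ V _ _ G N hG hN hA _ ih =>
    have _ : Nonempty V := hG.conn.nonempty
    exact h5 Γ V hG.toMed (hG.inv hA) N (hG.dim hN) ih
  | bld F v d ρ hdet _ ih => exact h7.bld F v d _ ρ hdet ih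
  | red d R ρ _ ih => exact red_all _ h7 d R _ ρ ih

/-- The torsion-free groups of the class `YN` are in `P`. -/
theorem yn_mem (hP : TClv P) (hTQ : S_TQP P) (hCC : S_CCP P) (hSh : S_SHA P) {Γ : Type}
    [Group Γ] (h : YN Γ) (ht : TF Γ) : P Γ := by
  have h1 : PC P Γ := by
    refine yn_star' hP hTQ hCC hSh h Γ (MonoidHom.id Γ) ?_
    have hs : Subsingleton (MonoidHom.id Γ).ker := by
      constructor
      rintro ⟨a, ha⟩ ⟨b, hb⟩
      apply Subtype.ext
      rw [MonoidHom.mem_ker] at ha hb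
      exact ha.trans hb.symm
    exact pc_triv hP _
  exact h1 Γ ht ⊤ inferInstance (⊤ : Subgroup Γ).subtype (⊤ : Subgroup Γ).subtype_injective

end

/-- All extensions of a group of the class by a group whose subgroups have `KS` have the same
property. -/
theorem nc_star (hG : S_SHP KS) (hTQ : S_TQC) (hCC : S_CCP (Hd KS)) (hA : FH.KSAff) {Γ : Type}
    [Group Γ] (h : NC Γ) : Star (Hd KS) Γ := by
  have g1 : TClv (Hd KS) := hd KS ks_tcl
  have g2 : TClv (Star (Hd KS)) := (star (Hd KS) g1).1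
  have g3 := (star (Hd KS) g1).2
  have g4 : TCl (Star (Hd KS)) :=
    ⟨g2.triv, g2.iso, g2.directed, fun G V _ _ _ 𝓗 hH hx _ => g2.tree G V 𝓗 hH hx⟩
  have g8 : S_SHA (Star (Hd KS)) := sha_star g1 (sha_hd ks_tcl (sha_of_shp KS ks_tcl hG))
  have g7 : NCl (Star (Hd KS)) := ncl_of_sha g4 g8
  have g6 : S_CCP (Star (Hd KS)) := ccp_star g1 hCC
  induction h with
  | yn h ht => exact yn_mem g2 (tqp_star hTQ) g6 g8 h ht
  | iso e _ ih => exact g2.iso _ _ e ih
  | sub H _ ih => exact g2.sub _ H ih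
  | directed S hne hd hS _ ih => exact g2.directed _ S hne hd hS ih
  | ext f _ _ ih1 ih2 => exact g3 _ _ f ih1 ih2
  | @tree Γ V _ _ T hT hadj hinv _ ih =>
    obtain ⟨𝓗, hH, hst⟩ := graph Γ V T hT hadj hinv
    have : Nonempty V := hT.connected.nonempty
    refine g2.tree Γ V 𝓗 hH fun x => ?_
    rw [hst x]
    exact ih x
  | @cube Γ V _ _ G N hG hN hadj _ ih => exact graph_of_med g6 G hG hadj hN ih
  | bld F v d ρ hdet _ ih => exact g7.bld F v d _ ρ hdet ih
  | red d R ρ _ ih => exact red_all _ g7 d R _ ρ ih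
  | ea θ hQ _ ih => exact star_ea hA (eam_of_EA hQ) θ ih

theorem nc_ks (hG : S_SHP KS) (hTQ : S_TQC) (hCC : S_CCP (Hd KS)) (hA : FH.KSAff) {Γ : Type}
    [Group Γ] (h : NC Γ) : KS Γ := by
  have g1 : TClv (Hd KS) := hd KS ks_tcl
  have g2 : Hd KS Γ := by
    refine nc_star hG hTQ hCC hA h Γ (MonoidHom.id Γ) ?_
    have : Subsingleton (MonoidHom.id Γ).ker := by
      constructor
      rintro ⟨a, ha⟩ ⟨b, hb⟩
      apply Subtype.ext
      rw [MonoidHom.mem_ker] at ha hb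
      exact ha.trans hb.symm
    exact g1.triv _
  exact ks_tcl.iso _ _ Subgroup.topEquiv (g2 ⊤)

/-- The main theorem, for the statements of Theorem TQ, of Theorem CC, of the theorem on affine
actions and `S_SHP KS`. -/
theorem nc_main (hG : S_SHP KS) (hTQ : S_TQC) (hCC : S_CCP (Hd KS)) (hA : FH.KSAff) {Γ : Type}
    [Group Γ] (h : NC Γ) (L : Type) [CommRing L] [IsDomain L] (hL : IsEuc L) : K1Units L Γ :=
  (WaldL.k1Units_iff L Γ).2 ((nc_ks hG hTQ hCC hA h).1 L hL)

end Pool.Agent.WhVan
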