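import Pool.Agent.Lib.MP_8f66f0_al_BN.NCS
import Pool.Agent.Lib.MP_8f66f0_al_TQ.VVU

/-! The theorem on the class `NC`, for the statement `S_SHP KS` on lattices with a shift. -/

set_option autoImplicit false

namespace Pool.Agent.WhVan

open Pool.Agent.BN

theorem nc_of_shp (hG : S_SHP TreeC.KS) {Γ : Type} [Group Γ] (h : NC Γ) (L : Type) [CommRing L]
    [IsDomain L] (hL : IsEuc L) : K1Units L Γ :=
  nc_main hG (QT.tqc_of_qc QT.qcB) CC.ccQ FH.ksAff h L hL

end Pool.Agent.WhVan
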