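import Mathlib
import Pool.Agent.Lib.MP_4ca46c_ag.Split
import Pool.Agent.Lib.MP_8f66f0_al_FH.FinalE

/-! Groups of matrices which are unipotent modulo an ideal. -/

set_option autoImplicit false

namespace Pool.Agent.BN

open Pool.Agent.WhVan

/-! ### Unipotent groups are nilpotent -/

section Uni

variable {K : Type} [Field K] [CharZero K] {d : ℕ}

/-- The span of the matrices `g - 1`. -/
private def aug (D : Subgroup (Matrix.GeneralLinearGroup (Fin d) K)) :
    Submodule K (Matrix (Fin d) (Fin d) K) :=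
  Submodule.span K {x | ∃ g ∈ D, x = (g : Matrix (Fin d) (Fin d) K) - 1}

private theorem aug_mul (D : Subgroup (Matrix.GeneralLinearGroup (Fin d) K))
    {x y : Matrix (Fin d) (Fin d) K} (hx : x ∈ aug D) (hy : y ∈ aug D) : x * y ∈ aug D := by
  induction hx using Submodule.span_induction with
  | mem x hx =>
    obtain ⟨g, hg, rfl⟩ := hx
    induction hy using Submodule.span_induction with
    | mem y hy =>
      obtain ⟨h, hh, rfl⟩ := hy
      have e : ((g : Matrix (Fin d) (Fin d) K) - 1) * ((h : Matrix (Fin d) (Fin d) K) - 1) =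
          (((g * h : Matrix.GeneralLinearGroup (Fin d) K) : Matrix (Fin d) (Fin d) K) - 1) -
            ((g : Matrix (Fin d) (Fin d) K) - 1) - ((h : Matrix (Fin d) (Fin d) K) - 1) := by
        rw [Units.val_mul]
        noncomm_ring
      rw [e]
      exact Submodule.sub_mem _ (Submodule.sub_mem _ (Submodule.subset_span ⟨_, D.mul_mem hg hh, rfl⟩)
        (Submodule.subset_span ⟨g, hg, rfl⟩)) (Submodule.subset_span ⟨h, hh, rfl⟩)
    | zero => rw [mul_zero]; exact Submodule.zero_mem _
    | add a b _ _ ha hb => rw [mul_add]; exact Submodule.add_mem _ ha hb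
    | smul c a _ ha => rw [mul_smul_comm]; exact Submodule.smul_mem _ _ ha
  | zero => rw [zero_mul]; exact Submodule.zero_mem _
  | add a b _ _ ha hb => rw [add_mul]; exact Submodule.add_mem _ ha hb
  | smul c a _ ha => rw [smul_mul_assoc]; exact Submodule.smul_mem _ _ ha

private theorem aug_trace (D : Subgroup (Matrix.GeneralLinearGroup (Fin d) K))
    (hD : ∀ g ∈ D, (g : Matrix (Fin d) (Fin d) K).trace = d)
    {x : Matrix (Fin d) (Fin d) K} (hx : x ∈ aug D) : x.trace = 0 := by
  induction hx using Submodule.span_induction with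
  | mem x hx =>
    obtain ⟨g, hg, rfl⟩ := hx
    rw [Matrix.trace_sub, hD g hg, Matrix.trace_one, Fintype.card_fin, sub_self]
  | zero => exact Matrix.trace_zero _ _
  | add a b _ _ ha hb => rw [Matrix.trace_add, ha, hb, add_zero]
  | smul c a _ ha => rw [Matrix.trace_smul, ha, smul_zero]

private theorem aug_nil (D : Subgroup (Matrix.GeneralLinearGroup (Fin d) K))
    (hD : ∀ g ∈ D, (g : Matrix (Fin d) (Fin d) K).trace = d)
    {x : Matrix (Fin d) (Fin d) K} (hx : x ∈ aug D) : IsNilpotent (Matrix.toLin' x) := by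
  refine Pool.Agent.Lib.MP_4ca46c_ag.isNilpotent_of_trace_pow _ fun m hm => ?_
  obtain ⟨k, rfl⟩ : ∃ k, m = k + 1 := ⟨m - 1, by omega⟩
  have h : ∀ k : ℕ, x ^ (k + 1) ∈ aug D := by
    intro k
    induction k with
    | zero => rw [zero_add, pow_one]; exact hx
    | succ k ih => rw [pow_succ]; exact aug_mul D ih hx
  rw [← Matrix.toLin'_pow, Matrix.trace_toLin'_eq]
  exact aug_trace D hD (h k)

attribute [local instance 100] LieRing.ofAssociativeRing in
private theorem aug_nilpotent (D : Subgroup (Matrix.GeneralLinearGroup (Fin d) K))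
    (hD : ∀ g ∈ D, (g : Matrix (Fin d) (Fin d) K).trace = d) :
    ∃ k : ℕ, aug D ^ k = ⊥ := by
  let L : LieSubalgebra K (Module.End K (Fin d → K)) :=
    { toSubmodule := (aug D).map (Matrix.toLin' : Matrix (Fin d) (Fin d) K ≃ₗ[K] _).toLinearMap
      lie_mem' := by
        rintro _ _ ⟨x, hx, rfl⟩ ⟨y, hy, rfl⟩
        refine ⟨x * y - y * x, Submodule.sub_mem _ (aug_mul D hx hy) (aug_mul D hy hx), ?_⟩
        change Matrix.toLin' (x * y - y * x) = ⁅Matrix.toLin' x, Matrix.toLin' y⁆
        rw [map_sub, Matrix.toLin'_mul, Matrix.toLin'_mul]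
        rfl }
  have h1 : LieModule.IsNilpotent L (Fin d → K) := by
    rw [LieModule.isNilpotent_iff_forall' (R := K)]
    rintro ⟨_, x, hx, rfl⟩
    exact aug_nil D hD hx
  obtain ⟨k, hk⟩ := (LieModule.isNilpotent_iff K L (Fin d → K)).1 h1
  have h2 : ∀ m : ℕ, ∀ y ∈ aug D ^ m, ∀ v : Fin d → K,
      Matrix.toLin' y v ∈ LieModule.lowerCentralSeries K L (Fin d → K) m := by
    intro m
    induction m with
    | zero =>
      intro y _ v
      rw [LieModule.lowerCentralSeries_zero]
      exact LieSubmodule.mem_top _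
    | succ m ih =>
      intro y hy v
      rw [pow_succ'] at hy
      induction hy using Submodule.mul_induction_on' with
      | mem_mul_mem a ha b hb =>
        rw [Matrix.toLin'_mul, LieModule.lowerCentralSeries_succ]
        exact LieSubmodule.lie_mem_lie (x := (⟨Matrix.toLin' a, a, ha, rfl⟩ : L))
          (LieSubmodule.mem_top _) (ih b hb v)
      | add a _ b _ ha hb =>
        rw [map_add, LinearMap.add_apply]
        exact add_mem ha hb
  refine ⟨k, ?_⟩
  rw [eq_bot_iff]
  intro y hy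
  rw [Submodule.mem_bot]
  apply (Matrix.toLin' : Matrix (Fin d) (Fin d) K ≃ₗ[K] _).injective
  rw [map_zero]
  refine LinearMap.ext fun v => ?_
  have h3 := h2 k y hy v
  rw [hk] at h3
  exact h3

private theorem aug_pow_le (D : Subgroup (Matrix.GeneralLinearGroup (Fin d) K)) (m : ℕ) :
    aug D ^ (m + 2) ≤ aug D ^ (m + 1) := by
  have h1 : aug D * aug D ≤ aug D := Submodule.mul_le.2 fun x hx y hy => aug_mul D hx hy
  calc aug D ^ (m + 2) = aug D ^ m * (aug D * aug D) := by rw [pow_add, pow_two]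
    _ ≤ aug D ^ m * aug D := mul_le_mul' le_rfl h1
    _ = aug D ^ (m + 1) := (pow_succ _ _).symm

private theorem sub_one_mem (D : Subgroup (Matrix.GeneralLinearGroup (Fin d) K))
    {g : Matrix.GeneralLinearGroup (Fin d) K} (hg : g ∈ D) :
    (g : Matrix (Fin d) (Fin d) K) - 1 ∈ aug D := Submodule.subset_span ⟨g, hg, rfl⟩

private theorem mul_mem_l (D : Subgroup (Matrix.GeneralLinearGroup (Fin d) K)) {m : ℕ}
    {x y : Matrix (Fin d) (Fin d) K} (hx : x ∈ aug D) (hy : y ∈ aug D ^ (m + 1)) :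
    x * y ∈ aug D ^ (m + 2) := by
  rw [pow_succ']
  exact Submodule.mul_mem_mul hx hy

private theorem mul_mem_r (D : Subgroup (Matrix.GeneralLinearGroup (Fin d) K)) {m : ℕ}
    {x y : Matrix (Fin d) (Fin d) K} (hx : x ∈ aug D ^ (m + 1)) (hy : y ∈ aug D) :
    x * y ∈ aug D ^ (m + 2) := by
  rw [pow_succ]
  exact Submodule.mul_mem_mul hx hy

/-- A descending central series. -/
private def ser (D : Subgroup (Matrix.GeneralLinearGroup (Fin d) K)) (m : ℕ) : Subgroup D where
  carrier := {g | ((g : Matrix.GeneralLinearGroup (Fin d) K) : Matrix (Fin d) (Fin d) K) - 1 ∈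
    aug D ^ (m + 1)}
  one_mem' := by
    change ((1 : Matrix.GeneralLinearGroup (Fin d) K) : Matrix (Fin d) (Fin d) K) - 1 ∈
      aug D ^ (m + 1)
    rw [Units.val_one, sub_self]
    exact Submodule.zero_mem _
  mul_mem' := by
    rintro ⟨g, hg⟩ ⟨h, hh⟩ h1 h2
    change (g : Matrix (Fin d) (Fin d) K) - 1 ∈ aug D ^ (m + 1) at h1
    change (h : Matrix (Fin d) (Fin d) K) - 1 ∈ aug D ^ (m + 1) at h2
    change ((g * h : Matrix.GeneralLinearGroup (Fin d) K) : Matrix (Fin d) (Fin d) K) - 1 ∈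
      aug D ^ (m + 1)
    have e : ((g * h : Matrix.GeneralLinearGroup (Fin d) K) : Matrix (Fin d) (Fin d) K) - 1 =
        ((g : Matrix (Fin d) (Fin d) K) - 1) * ((h : Matrix (Fin d) (Fin d) K) - 1) +
          ((g : Matrix (Fin d) (Fin d) K) - 1) + ((h : Matrix (Fin d) (Fin d) K) - 1) := by
      rw [Units.val_mul]
      noncomm_ring
    rw [e]
    exact Submodule.add_mem _ (Submodule.add_mem _
      (aug_pow_le D m (mul_mem_l D (sub_one_mem D hg) h2)) h1) h2
  inv_mem' := by
    rintro ⟨g, hg⟩ h1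
    change (g : Matrix (Fin d) (Fin d) K) - 1 ∈ aug D ^ (m + 1) at h1
    change ((g⁻¹ : Matrix.GeneralLinearGroup (Fin d) K) : Matrix (Fin d) (Fin d) K) - 1 ∈
      aug D ^ (m + 1)
    have e0 : ((g⁻¹ : Matrix.GeneralLinearGroup (Fin d) K) : Matrix (Fin d) (Fin d) K) *
        (g : Matrix (Fin d) (Fin d) K) = 1 := by
      rw [← Units.val_mul, inv_mul_cancel, Units.val_one]
    have e : ((g⁻¹ : Matrix.GeneralLinearGroup (Fin d) K) : Matrix (Fin d) (Fin d) K) - 1 =
        -((((g⁻¹ : Matrix.GeneralLinearGroup (Fin d) K) : Matrix (Fin d) (Fin d) K) - 1) *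
          ((g : Matrix (Fin d) (Fin d) K) - 1)) - ((g : Matrix (Fin d) (Fin d) K) - 1) := by
      have e1 : ∀ a b : Matrix (Fin d) (Fin d) K, a * b = 1 →
          a - 1 = -((a - 1) * (b - 1)) - (b - 1) := by
        intro a b hab
        have e2 : (a - 1) * (b - 1) = a * b - a - b + 1 := by noncomm_ring
        rw [e2, hab]
        abel
      exact e1 _ _ e0
    rw [e]
    exact Submodule.sub_mem _ (Submodule.neg_mem _
      (aug_pow_le D m (mul_mem_l D (sub_one_mem D (D.inv_mem hg)) h1))) h1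

/-- A group of matrices over a field of characteristic zero, all of whose elements have the trace of
the unit matrix, is nilpotent. -/
theorem uni_nilpotent (D : Subgroup (Matrix.GeneralLinearGroup (Fin d) K))
    (hD : ∀ g ∈ D, (g : Matrix (Fin d) (Fin d) K).trace = d) : Group.IsNilpotent D := by
  obtain ⟨k, hk⟩ := aug_nilpotent D hD
  rw [Subgroup.nilpotent_iff_finite_descending_central_series]
  refine ⟨k, ser D, ⟨?_, ?_⟩, ?_⟩
  · rw [eq_top_iff]
    rintro ⟨g, hg⟩ _
    change (g : Matrix (Fin d) (Fin d) K) - 1 ∈ aug D ^ (0 + 1)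
    rw [zero_add, pow_one]
    exact sub_one_mem D hg
  · rintro ⟨x, hx⟩ m h1 ⟨g, hg⟩
    change (x : Matrix (Fin d) (Fin d) K) - 1 ∈ aug D ^ (m + 1) at h1
    change ((x * g * x⁻¹ * g⁻¹ : Matrix.GeneralLinearGroup (Fin d) K) :
      Matrix (Fin d) (Fin d) K) - 1 ∈ aug D ^ (m + 2)
    set u : Matrix (Fin d) (Fin d) K :=
      ((x⁻¹ * g⁻¹ : Matrix.GeneralLinearGroup (Fin d) K) : Matrix (Fin d) (Fin d) K) with hu
    have hu1 : u - 1 ∈ aug D := sub_one_mem D (D.mul_mem (D.inv_mem hx) (D.inv_mem hg))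
    have e0 : ((g : Matrix (Fin d) (Fin d) K) * (x : Matrix (Fin d) (Fin d) K)) * u = 1 := by
      rw [hu, ← Units.val_mul, ← Units.val_mul]
      have : g * x * (x⁻¹ * g⁻¹) = 1 := by group
      rw [this, Units.val_one]
    have e1 : ((x * g * x⁻¹ * g⁻¹ : Matrix.GeneralLinearGroup (Fin d) K) :
        Matrix (Fin d) (Fin d) K) =
        ((x : Matrix (Fin d) (Fin d) K) * (g : Matrix (Fin d) (Fin d) K)) * u := by
      rw [hu, ← Units.val_mul, ← Units.val_mul]
      congr 1
      group
    have e2 : ∀ a b c : Matrix (Fin d) (Fin d) K, b * a * c = 1 →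
        a * b * c - 1 = ((a - 1) * (b - 1) - (b - 1) * (a - 1)) +
          ((a - 1) * (b - 1) - (b - 1) * (a - 1)) * (c - 1) := by
      intro a b c h
      have e3 : ((a - 1) * (b - 1) - (b - 1) * (a - 1)) +
          ((a - 1) * (b - 1) - (b - 1) * (a - 1)) * (c - 1) = a * b * c - b * a * c := by
        noncomm_ring
      rw [e3, h]
    rw [e1, e2 _ _ _ e0]
    have h2 : ((x : Matrix (Fin d) (Fin d) K) - 1) * ((g : Matrix (Fin d) (Fin d) K) - 1) -
        ((g : Matrix (Fin d) (Fin d) K) - 1) * ((x : Matrix (Fin d) (Fin d) K) - 1) ∈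
        aug D ^ (m + 2) :=
      Submodule.sub_mem _ (mul_mem_r D h1 (sub_one_mem D hg)) (mul_mem_l D (sub_one_mem D hg) h1)
    exact Submodule.add_mem _ h2 (aug_pow_le D (m + 1) (mul_mem_r D h2 hu1))
  · rw [eq_bot_iff]
    rintro ⟨g, hg⟩ h1
    change (g : Matrix (Fin d) (Fin d) K) - 1 ∈ aug D ^ (k + 1) at h1
    rw [pow_succ, hk, Submodule.bot_mul, Submodule.mem_bot, sub_eq_zero] at h1
    rw [Subgroup.mem_bot]
    exact Subtype.ext (Units.ext h1)

end Uni

theorem ea_of_nilpotent (G : Type) [Group G] [Group.IsNilpotent G] : EA G := by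
  refine Group.nilpotent_center_quotient_ind (P := fun G _ _ => EA G) G ?_ ?_
  · intro G _ _
    exact EA.fin inferInstance
  · intro G _ _ ih
    exact EA.ext (Subgroup.center G) (EA.ab fun x y => Subtype.ext
      (Subgroup.mem_center_iff.1 y.2 x)) ih

end Pool.Agent.BN
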