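import Mathlib
import Pool.Agent.Lib.MP_8f66f0_al_BN.Spz
import Pool.Agent.Lib.MP_8f66f0_al_BN.NCD

/-! Specialisations of linear groups: torsion free groups of matrices over a domain of
characteristic zero whose image modulo an ideal `P` with `P ∩ ℤ = 0` is elementary amenable. -/

set_option autoImplicit false

namespace Pool.Agent.WhVan

open Pool.Agent.BN

/-- The image of a group of matrices modulo the ideal `P`. -/
def redGL {R : Type} [CommRing R] {d : ℕ} (P : Ideal R)
    (Γ : Subgroup (Matrix.GeneralLinearGroup (Fin d) R)) :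
    Subgroup (Matrix.GeneralLinearGroup (Fin d) (R ⧸ P)) :=
  Γ.map (Matrix.GeneralLinearGroup.map (Ideal.Quotient.mk P))

theorem ea_iso {G H : Type} [Group G] [Group H] (e : G ≃* H) (h : EA G) : EA H :=
  EA.sub e.symm.toMonoidHom e.symm.injective h

theorem nc_of_ea {G : Type} [Group G] (h : EA G)
    (ht : ∀ (g : G) (n : ℕ), 0 < n → g ^ n = 1 → g = 1) : NC G := by
  refine NC.ea (MonoidHom.id G) h fun U hU => ?_
  have hU' : Finite U := by
    rw [Subgroup.map_id] at hU
    exact hU
  refine NC.yn (YN.fin hU') fun g n hn hg => Subtype.ext (ht g n hn ?_)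
  have := congrArg (fun x : U => (x : G)) hg
  simpa using this

/-- An element of `P` which is integral over `ℤ` is zero, if `P ∩ ℤ = 0`. -/
theorem integral_mem {R : Type} [CommRing R] [IsDomain R] {P : Ideal R}
    (hP : ∀ n : ℤ, (n : R) ∈ P → n = 0) {c : R} (hc : IsIntegral ℤ c) (hcP : c ∈ P) : c = 0 := by
  by_contra h0
  obtain ⟨f, hf, hfc⟩ := hc
  have hf0 : f ≠ 0 := hf.ne_zero
  obtain ⟨g, hg, hg0⟩ := Polynomial.exists_eq_pow_rootMultiplicity_mul_and_not_dvd f hf0 0
  rw [Polynomial.C_0, sub_zero] at hg hg0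
  have h1 : Polynomial.eval₂ (algebraMap ℤ R) c g = 0 := by
    rw [hg, Polynomial.eval₂_mul, Polynomial.eval₂_pow, Polynomial.eval₂_X] at hfc
    exact (mul_eq_zero.1 hfc).resolve_left (pow_ne_zero _ h0)
  have h2 : g.coeff 0 ≠ 0 := fun h => hg0 (Polynomial.X_dvd_iff.2 h)
  apply h2
  apply hP
  have h3 : g = Polynomial.X * g.divX + Polynomial.C (g.coeff 0) := by
    rw [mul_comm]
    exact (Polynomial.divX_mul_X_add g).symm
  rw [h3, Polynomial.eval₂_add, Polynomial.eval₂_mul, Polynomial.eval₂_X, Polynomial.eval₂_C]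
    at h1
  have h4 : ((g.coeff 0 : ℤ) : R) = -(c * Polynomial.eval₂ (algebraMap ℤ R) c g.divX) := by
    have : algebraMap ℤ R (g.coeff 0) = ((g.coeff 0 : ℤ) : R) := by simp
    rw [← this]
    linear_combination h1
  rw [h4]
  exact P.neg_mem (P.mul_mem_right _ hcP)

/-- Specialisation: if all subgroups of the image of a torsion free group of matrices modulo `P`
with characteristic polynomials which are integral over `ℤ` are elementary amenable, then the group
belongs to the class `NC`. -/
theorem nc_spz {R : Type} [CommRing R] [IsDomain R] (P : Ideal R)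
    (hP : ∀ n : ℤ, (n : R) ∈ P → n = 0) (d : ℕ)
    (Γ : Subgroup (Matrix.GeneralLinearGroup (Fin d) R))
    (ht : ∀ g ∈ Γ, ∀ n : ℕ, 0 < n → g ^ n = 1 → g = 1)
    (hEA : ∀ D : Subgroup (Matrix.GeneralLinearGroup (Fin d) (R ⧸ P)), D ≤ redGL P Γ →
      (∀ g ∈ D, ∀ k : ℕ, IsIntegral ℤ ((g : Matrix (Fin d) (Fin d) (R ⧸ P)).charpoly.coeff k)) →
      EA D) : NC Γ := by
  have hch : CharZero R := by
    refine ⟨fun a b hab => ?_⟩
    have h1 := hP ((a : ℤ) - (b : ℤ)) (by
      rw [Int.cast_sub, Int.cast_natCast, Int.cast_natCast, hab, sub_self]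
      exact P.zero_mem)
    omega
  refine NC.red d R Γ.subtype fun D hD => ?_
  let π : Matrix.GeneralLinearGroup (Fin d) R →* Matrix.GeneralLinearGroup (Fin d) (R ⧸ P) :=
    Matrix.GeneralLinearGroup.map (Ideal.Quotient.mk P)
  let θ : D →* Matrix.GeneralLinearGroup (Fin d) (R ⧸ P) := (π.comp Γ.subtype).comp D.subtype
  -- the image
  have h1 : EA θ.range := by
    refine hEA _ ?_ ?_
    · rintro _ ⟨g, rfl⟩
      exact ⟨(g : Γ), (g : Γ).2, rfl⟩
    · rintro _ ⟨g, rfl⟩ k
      have e1 : ((θ g : Matrix.GeneralLinearGroup (Fin d) (R ⧸ P)) :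
          Matrix (Fin d) (Fin d) (R ⧸ P)) =
          (((g : Γ) : Matrix.GeneralLinearGroup (Fin d) R) : Matrix (Fin d) (Fin d) R).map
            (Ideal.Quotient.mk P) := rfl
      rw [e1, Matrix.charpoly_map, Polynomial.coeff_map]
      exact (hD g g.2 k).map (Ideal.Quotient.mkₐ ℤ P)
  -- the kernel
  have h2 : EA θ.ker := by
    let K := FractionRing R
    let j : Matrix.GeneralLinearGroup (Fin d) R →* Matrix.GeneralLinearGroup (Fin d) K :=
      Matrix.GeneralLinearGroup.map (algebraMap R K)
    have hj : Function.Injective j := by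
      intro a b hab
      apply Units.ext
      have e1 : (a : Matrix (Fin d) (Fin d) R).map (algebraMap R K) =
          (b : Matrix (Fin d) (Fin d) R).map (algebraMap R K) :=
        congrArg (fun x : Matrix.GeneralLinearGroup (Fin d) K => (x : Matrix (Fin d) (Fin d) K)) hab
      exact Matrix.map_injective (IsFractionRing.injective R K) e1
    let ψ : θ.ker →* Matrix.GeneralLinearGroup (Fin d) K :=
      ((j.comp Γ.subtype).comp D.subtype).comp θ.ker.subtype
    have hψ : Function.Injective ψ := by
      intro a b hab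
      exact Subtype.ext (Subtype.ext (Subtype.ext (hj hab)))
    have h3 : Group.IsNilpotent ψ.range := by
      refine uni_nilpotent ψ.range ?_
      rintro _ ⟨g, rfl⟩
      set x : Matrix (Fin d) (Fin d) R :=
        ((((g : D) : Γ) : Matrix.GeneralLinearGroup (Fin d) R) : Matrix (Fin d) (Fin d) R) with hx
      have e1 : ((ψ g : Matrix.GeneralLinearGroup (Fin d) K) : Matrix (Fin d) (Fin d) K) =
          x.map (algebraMap R K) := rfl
      have e2 : x.map (Ideal.Quotient.mk P) = 1 := by
        have := g.2
        rw [MonoidHom.mem_ker] at this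
        exact congrArg (fun y : Matrix.GeneralLinearGroup (Fin d) (R ⧸ P) =>
          (y : Matrix (Fin d) (Fin d) (R ⧸ P))) this
      have e3 : x.trace = d := by
        rcases Nat.eq_zero_or_pos d with hd | hd
        · subst hd
          simp [Matrix.trace]
        · have hne : Nonempty (Fin d) := ⟨⟨0, hd⟩⟩
          have h5 : IsIntegral ℤ (x.trace) := by
            have h6 := hD g (g : D).2 (d - 1)
            have h7 : x.trace = -x.charpoly.coeff (Fintype.card (Fin d) - 1) :=
              Matrix.trace_eq_neg_charpoly_coeff x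
            rw [Fintype.card_fin] at h7
            rw [h7]
            exact h6.neg
          have h8 : x.trace - d ∈ P := by
            rw [← Ideal.Quotient.eq_zero_iff_mem, map_sub, map_natCast]
            have h9 : Ideal.Quotient.mk P x.trace = (x.map (Ideal.Quotient.mk P)).trace := by
              rw [Matrix.trace, Matrix.trace, map_sum]
              rfl
            rw [h9, e2, Matrix.trace_one, Fintype.card_fin, sub_self]
          have h10 : IsIntegral ℤ (x.trace - (d : R)) := by
            refine h5.sub ?_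
            have : (d : R) = algebraMap ℤ R (d : ℤ) := by simp
            rw [this]
            exact isIntegral_algebraMap
          exact sub_eq_zero.1 (integral_mem hP h10 h8)
      have e4 : (x.map (algebraMap R K)).trace = algebraMap R K x.trace := by
        rw [Matrix.trace, Matrix.trace, map_sum]
        rfl
      rw [e1, e4, e3, map_natCast]
    exact ea_iso (MonoidHom.ofInjective hψ).symm (ea_of_nilpotent ψ.range)
  have h3 : EA (D ⧸ θ.ker) := ea_iso (QuotientGroup.quotientKerEquivRange θ).symm h1
  refine nc_of_ea (EA.ext θ.ker h2 h3) fun g n hn hg => ?_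
  apply Subtype.ext
  apply Subtype.ext
  refine ht _ (g : Γ).2 n hn ?_
  have := congrArg (fun x : D => ((x : Γ) : Matrix.GeneralLinearGroup (Fin d) R)) hg
  simpa using this

/-- Torsion free groups of matrices over a domain `R` whose image modulo an ideal `P` with
`P ∩ ℤ = 0` is elementary amenable (for example trivial) belong to the class `NC`. -/
theorem nc_spec {R : Type} [CommRing R] [IsDomain R] (P : Ideal R)
    (hP : ∀ n : ℤ, (n : R) ∈ P → n = 0) (d : ℕ)
    (Γ : Subgroup (Matrix.GeneralLinearGroup (Fin d) R))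
    (ht : ∀ g ∈ Γ, ∀ n : ℕ, 0 < n → g ^ n = 1 → g = 1) (hEA : EA (redGL P Γ)) : NC Γ :=
  nc_spz P hP d Γ ht fun _ hD _ => EA.sub (Subgroup.inclusion hD) (Subgroup.inclusion_injective hD) hEA

end Pool.Agent.WhVan
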